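import Mathlib
import Pool.Agent.Helper82.RK.Power

/-! Project RK (MP_aa96c4_al): exact letters. `P` normal in the finite `p`-group `G` with property
STAR (`RKP.Star`), `Z` normal in `G`, `Z <= P`: there are `x i` in `P`, `x i ^ (p ^ l i)` in `Z`, such that
every element of `P` is uniquely `x 0 ^ a 0 * ... * x (d-1) ^ a (d-1) * z` with `a i < p ^ l i`, `z` in `Z`,
and for elements of `P ^ (p ^ e)` all `a i` are divisible by `p ^ e`. -/

namespace Pool.Agent.Helper10.RK

open RKP
open scoped commutatorElement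

section cp

variable {G H : Type*} [Group G] [Group H] {d : ℕ}

/-- ordered product `x 0 ^ a 0 * x 1 ^ a 1 * ...`. -/
def cp (x : Fin d → G) (a : Fin d → ℕ) : G := (List.ofFn fun i => x i ^ a i).prod

lemma cp_def (x : Fin d → G) (a : Fin d → ℕ) : cp x a = (List.ofFn fun i => x i ^ a i).prod := rfl

lemma cp_succ {d : ℕ} (x : Fin (d + 1) → G) (a : Fin (d + 1) → ℕ) :
    cp x a = x 0 ^ a 0 * cp (fun i => x i.succ) (fun i => a i.succ) := by
  rw [cp, List.ofFn_succ, List.prod_cons, cp]

lemma cp_nil (x : Fin 0 → G) (a : Fin 0 → ℕ) : cp x a = 1 := by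
  rw [cp, List.ofFn_zero, List.prod_nil]

lemma cp_congr {x : Fin d → G} {a b : Fin d → ℕ} (h : ∀ i, x i ^ a i = x i ^ b i) :
    cp x a = cp x b := by
  rw [cp, cp]; congr 1; congr 1; funext i; exact h i

lemma cp_zero (x : Fin d → G) : cp x (fun _ => 0) = 1 := by
  induction d with
  | zero => exact cp_nil _ _
  | succ d ih => rw [cp_succ, pow_zero, one_mul, ih]

lemma cp_mem {x : Fin d → G} {a : Fin d → ℕ} {K : Subgroup G} (h : ∀ i, x i ^ a i ∈ K) :
    cp x a ∈ K := by
  induction d with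
  | zero => rw [cp_nil]; exact K.one_mem
  | succ d ih => rw [cp_succ]; exact K.mul_mem (h 0) (ih fun i => h i.succ)

lemma cp_map (f : G →* H) (x : Fin d → G) (a : Fin d → ℕ) : f (cp x a) = cp (fun i => f (x i)) a := by
  induction d with
  | zero => rw [cp_nil, cp_nil, map_one]
  | succ d ih => rw [cp_succ, cp_succ, map_mul, map_pow, ih]

lemma cp_single (x : Fin d → G) (i : Fin d) (n : ℕ) : cp x (Pi.single i n) = x i ^ n := by
  induction d with
  | zero => exact i.elim0
  | succ d ih =>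
    rw [cp_succ]
    refine Fin.cases ?_ (fun i => ?_) i
    · rw [Pi.single_eq_same]
      have : cp (fun i : Fin d => x i.succ) (fun i => (Pi.single (0 : Fin (d + 1)) n : Fin (d + 1) → ℕ) i.succ) = 1 := by
        rw [← cp_zero (fun i : Fin d => x i.succ)]
        apply cp_congr
        intro i
        rw [Pi.single_eq_of_ne (Fin.succ_ne_zero i)]
      rw [this, mul_one]
    · rw [Pi.single_eq_of_ne (Fin.succ_ne_zero i).symm, pow_zero, one_mul]
      rw [← ih (fun i => x i.succ) i]
      apply cp_congr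
      intro k
      by_cases hk : k = i
      · subst hk; rw [Pi.single_eq_same, Pi.single_eq_same]
      · rw [Pi.single_eq_of_ne hk, Pi.single_eq_of_ne (fun h => hk (Fin.succ_injective _ h))]

/-- adding exponents which give elements commuting with all letters. -/
lemma cp_add {x : Fin d → G} {a b : Fin d → ℕ} (h : ∀ i k, Commute (x i ^ b i) (x k)) :
    cp x (fun i => a i + b i) = cp x a * cp x b := by
  induction d with
  | zero => rw [cp_nil, cp_nil, cp_nil, one_mul]
  | succ d ih =>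
    rw [cp_succ, cp_succ, cp_succ, ih (fun i k => h i.succ k.succ), pow_add]
    have hc : Commute (x 0 ^ b 0) (cp (fun i => x i.succ) (fun i => a i.succ)) := by
      have : cp (fun i : Fin d => x i.succ) (fun i => a i.succ) ∈ Subgroup.centralizer {x 0 ^ b 0} := by
        apply cp_mem
        intro i
        apply Subgroup.pow_mem
        rw [Subgroup.mem_centralizer_singleton_iff]
        exact (h 0 i.succ).symm
      rw [Subgroup.mem_centralizer_singleton_iff] at this
      exact this.symm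
    rw [mul_assoc, mul_assoc, ← mul_assoc (x 0 ^ b 0), hc.eq]
    simp only [mul_assoc]

/-- if the product and all factors but one are in `K`, the remaining factor is in `K`. -/
lemma mem_of_cp_mem {x : Fin d → G} {a : Fin d → ℕ} {K : Subgroup G} (i₀ : Fin d)
    (h : ∀ i, i ≠ i₀ → x i ^ a i ∈ K) (hK : cp x a ∈ K) : x i₀ ^ a i₀ ∈ K := by
  induction d with
  | zero => exact i₀.elim0
  | succ d ih =>
    rw [cp_succ] at hK
    induction i₀ using Fin.cases with
    | zero =>
      have h1 : cp (fun i : Fin d => x i.succ) (fun i => a i.succ) ∈ K :=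
        cp_mem fun i => h i.succ (Fin.succ_ne_zero i)
      exact (K.mul_mem_cancel_right h1).1 hK
    | succ i =>
      have h1 := h 0 (Fin.succ_ne_zero i).symm
      exact ih (x := fun i => x i.succ) (a := fun i => a i.succ) i
        (fun k hk => h k.succ fun h2 => hk (Fin.succ_injective _ h2)) ((K.mul_mem_cancel_left h1).1 hK)

end cp

section basic

variable {G : Type*} [Group G] [Finite G] {p : ℕ} [hp : Fact p.Prime] {P : Subgroup G} {j : ℕ}

lemma pw_pw (S : Star p P j) (hG : IsPGroup p G) (e : ℕ) :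
    pw p (pw (p ^ e) P) ≤ pw (p ^ (e + 1)) P := by
  have h := S.gen_one hG (X := {v | ∃ s ∈ P, v = s ^ (p ^ e)})
    (by
      rintro _ ⟨s, hs, rfl⟩ g
      exact ⟨g * s * g⁻¹, S.normal.conj_mem _ hs g, by rw [conj_pow]⟩)
    (by
      rintro _ ⟨s, hs, rfl⟩
      exact P.pow_mem hs _)
  refine h.trans ?_
  rw [Subgroup.closure_le]
  rintro _ ⟨_, ⟨s, hs, rfl⟩, rfl⟩
  rw [← pow_mul, ← pow_succ]
  exact mem_pw hs

omit [Finite G] hp in
lemma pw_anti {P : Subgroup G} {e f : ℕ} (h : e ≤ f) : pw (p ^ f) P ≤ pw (p ^ e) P :=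
  pw_dvd (pow_dvd_pow p h) P

lemma comm_pw (S : Star p P j) (hG : IsPGroup p G) (e : ℕ) :
    ⁅pw (p ^ e) P, P⁆ ≤ pw (p ^ (e + 2)) P := by
  refine (S.star2 (pw_normal S.normal) (pw_self _ _)).trans ?_
  exact (pw_mono (pw_pw S hG e)).trans (pw_pw S hG (e + 1))

lemma pow_mem_pw (S : Star p P j) (hG : IsPGroup p G) {t : G} {N : ℕ} (ht : t ∈ pw (p ^ N) P) (e : ℕ) :
    t ^ (p ^ e) ∈ pw (p ^ (N + e)) P := by
  induction e with
  | zero => simpa using ht
  | succ e ih =>
    rw [pow_succ, pow_mul]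
    exact pw_pw S hG _ (mem_pw ih)

/-- `(u t) ^ (p ^ e) = u ^ (p ^ e) t ^ (p ^ e)` modulo `P ^ (p ^ (N + e + 1))` for `t` in `P ^ (p ^ N)`. -/
lemma hom_gen (S : Star p P j) (hG : IsPGroup p G) {u t : G} {N : ℕ} (hu : u ∈ P)
    (ht : t ∈ pw (p ^ N) P) (e : ℕ) :
    (u ^ (p ^ e) * t ^ (p ^ e))⁻¹ * (u * t) ^ (p ^ e) ∈ pw (p ^ (N + e + 1)) P := by
  induction e with
  | zero => simp
  | succ e ih =>
    set r := (u ^ (p ^ e) * t ^ (p ^ e))⁻¹ * (u * t) ^ (p ^ e) with hr
    have hAn : (pw (p ^ (N + e + 2)) P).Normal := pw_normal S.normal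
    let π := QuotientGroup.mk' (pw (p ^ (N + e + 2)) P)
    have hker : ∀ g : G, π g = 1 ↔ g ∈ pw (p ^ (N + e + 2)) P := fun g => QuotientGroup.eq_one_iff g
    have hcm : ∀ a ∈ pw (p ^ (N + e)) P, ∀ b ∈ P, Commute (π a) (π b) := by
      intro a ha b hb
      change π a * π b = π b * π a
      rw [← commutatorElement_eq_one_iff_mul_comm, ← map_commutatorElement, hker]
      exact comm_pw S hG _ (Subgroup.commutator_mem_commutator ha hb)
    have hte : t ^ (p ^ e) ∈ pw (p ^ (N + e)) P := pow_mem_pw S hG ht e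
    have hteP : t ^ (p ^ e) ∈ P := pw_self _ _ hte
    have hrP : r ∈ P := pw_self _ _ ih
    have h1 : (u * t) ^ (p ^ e) = u ^ (p ^ e) * t ^ (p ^ e) * r := by rw [hr]; group
    have hrr : r ∈ pw (p ^ (N + e)) P := pw_anti (by omega) ih
    have hrp : π r ^ p = 1 := by
      rw [← map_pow, hker]
      exact pw_pw S hG _ (mem_pw ih)
    have hp1 : ∀ g : G, g ^ (p ^ (e + 1)) = (g ^ (p ^ e)) ^ p := fun g => by
      rw [← pow_mul, ← pow_succ]
    have key : π ((u * t) ^ (p ^ (e + 1))) = π (u ^ (p ^ (e + 1)) * t ^ (p ^ (e + 1))) := by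
      rw [hp1 (u * t), hp1 u, hp1 t, h1, map_pow, map_mul, map_mul]
      have c1 : Commute (π (u ^ (p ^ e)) * π (t ^ (p ^ e))) (π r) :=
        ((hcm r hrr _ (P.pow_mem hu _)).symm).mul_left ((hcm r hrr _ hteP).symm)
      have c2 : Commute (π (u ^ (p ^ e))) (π (t ^ (p ^ e))) := (hcm _ hte _ (P.pow_mem hu _)).symm
      rw [c1.mul_pow, hrp, mul_one, c2.mul_pow, map_mul, map_pow π _ p, map_pow π _ p]
    have h2 : N + (e + 1) + 1 = N + e + 2 := by omega
    rw [h2, ← hker, map_mul, map_inv, key, inv_mul_cancel]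

lemma exists_bot (hG : IsPGroup p G) : ∃ E : ℕ, ∀ g : G, g ^ (p ^ E) = 1 := by
  obtain ⟨n, hn⟩ := hG.exists_card_eq
  exact ⟨n, fun g => by rw [← hn]; exact pow_card_eq_one'⟩

omit [Finite G] in
lemma pw_bot {P : Subgroup G} {m : ℕ} (h : ∀ g : G, g ^ m = 1) : pw m P = ⊥ := by
  rw [eq_bot_iff, pw_le]
  intro r _
  rw [h r]; exact Subgroup.one_mem _

/-- modulo `P ^ (p ^ (m + 1))` every element of `P ^ (p ^ m)` is a `p ^ m`-th power. -/
lemma pow_mod (S : Star p P j) (hG : IsPGroup p G) (m : ℕ) {h : G} (hh : h ∈ pw (p ^ m) P) :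
    ∃ w ∈ P, (w ^ (p ^ m))⁻¹ * h ∈ pw (p ^ (m + 1)) P := by
  have hAn : (pw (p ^ (m + 1)) P).Normal := pw_normal S.normal
  refine Subgroup.closure_induction
    (p := fun h _ => ∃ w ∈ P, (w ^ (p ^ m))⁻¹ * h ∈ pw (p ^ (m + 1)) P) ?_ ?_ ?_ ?_ hh
  · rintro _ ⟨s, hs, rfl⟩
    exact ⟨s, hs, by rw [inv_mul_cancel]; exact Subgroup.one_mem _⟩
  · exact ⟨1, P.one_mem, by simp⟩
  · rintro a b ha hb ⟨w, hw, h1⟩ ⟨v, hv, h2⟩
    refine ⟨w * v, P.mul_mem hw hv, ?_⟩
    have h3 := hom_gen S hG (N := 0) hw (t := v) (by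
      rw [pow_zero]; exact (by simpa using mem_pw (m := 1) hv)) m
    rw [zero_add] at h3
    -- a = w^(..) r1, b = v^(..) r2, (w v)^(..) = w^.. v^.. r3
    set A := pw (p ^ (m + 1)) P
    let π := QuotientGroup.mk' A
    have hker : ∀ g : G, π g = 1 ↔ g ∈ A := fun g => QuotientGroup.eq_one_iff g
    rw [← hker] at h1 h2 h3 ⊢
    rw [map_mul, map_inv, inv_mul_eq_one] at h1 h2 h3 ⊢
    rw [map_mul, ← h1, ← h2, ← h3, map_mul]
  · rintro a ha ⟨w, hw, h1⟩
    refine ⟨w⁻¹, P.inv_mem hw, ?_⟩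
    set A := pw (p ^ (m + 1)) P
    let π := QuotientGroup.mk' A
    have hker : ∀ g : G, π g = 1 ↔ g ∈ A := fun g => QuotientGroup.eq_one_iff g
    rw [← hker] at h1 ⊢
    rw [map_mul, map_inv, inv_mul_eq_one] at h1 ⊢
    rw [map_inv, ← h1, inv_pow, map_inv]

/-- every element of `P ^ (p ^ e)` is a `p ^ e`-th power of an element of `P`. -/
lemma exists_root (S : Star p P j) (hG : IsPGroup p G) (e : ℕ) {g : G} (hg : g ∈ pw (p ^ e) P) :
    ∃ u ∈ P, u ^ (p ^ e) = g := by
  have key : ∀ N : ℕ, ∃ u ∈ P, (u ^ (p ^ e))⁻¹ * g ∈ pw (p ^ (e + N)) P := by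
    intro N
    induction N with
    | zero => exact ⟨1, P.one_mem, by simpa using hg⟩
    | succ N ih =>
      obtain ⟨u, hu, h1⟩ := ih
      obtain ⟨w, hw, h2⟩ := pow_mod S hG _ h1
      have hwN : w ^ (p ^ N) ∈ pw (p ^ N) P := mem_pw hw
      refine ⟨u * w ^ (p ^ N), P.mul_mem hu (P.pow_mem hw _), ?_⟩
      have h3 := hom_gen S hG hu hwN e
      have h4 : N + e + 1 = e + (N + 1) := by omega
      have hAn : (pw (p ^ (e + (N + 1))) P).Normal := pw_normal S.normal
      rw [h4] at h3
      rw [add_assoc] at h2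
      set A := pw (p ^ (e + (N + 1))) P
      let π := QuotientGroup.mk' A
      have hker : ∀ g : G, π g = 1 ↔ g ∈ A := fun g => QuotientGroup.eq_one_iff g
      rw [← hker] at h2 h3 ⊢
      rw [map_mul, map_inv, inv_mul_eq_one] at h2 h3 ⊢
      rw [← h3, map_mul, ← pow_mul, ← pow_add, add_comm N e, h2, ← map_mul, mul_inv_cancel_left]
  obtain ⟨E, hE⟩ := exists_bot hG
  obtain ⟨u, hu, h⟩ := key E
  refine ⟨u, hu, ?_⟩
  have h5 : pw (p ^ (e + E)) P = ⊥ := pw_bot fun g => by
    rw [pow_add, mul_comm, pow_mul, hE, one_pow]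
  rw [h5, Subgroup.mem_bot, inv_mul_eq_one] at h
  exact h

/-- an element whose `p ^ e`-th power is deep can be corrected to an element of order `p ^ e`. -/
lemma exact_lift (S : Star p P j) (hG : IsPGroup p G) (e : ℕ) {x : G} (hx : x ∈ P)
    (h : x ^ (p ^ e) ∈ pw (p ^ (e + 1)) P) :
    ∃ x' ∈ P, x' ^ (p ^ e) = 1 ∧ x'⁻¹ * x ∈ pw p P := by
  obtain ⟨y, hy, hy'⟩ := exists_root S hG (e + 1) h
  have h1 : x ^ (p ^ e) = (y ^ p) ^ (p ^ e) := by rw [← hy', ← pow_mul, pow_succ']
  refine ⟨x * (y ^ p)⁻¹, P.mul_mem hx (P.inv_mem (P.pow_mem hy _)),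
    Star.root e S hG hx (P.pow_mem hy _) h1, ?_⟩
  have h2 : (x * (y ^ p)⁻¹)⁻¹ * x = y ^ p := by group
  rw [h2]; exact mem_pw hy

end basic

section basis

variable {G : Type*} [Group G] [Finite G] {p : ℕ} [hp : Fact p.Prime] {P : Subgroup G} {j : ℕ}

/-- a system of generators of `P` modulo `P ^ p` with orders `p ^ l i`. -/
structure Gens (p : ℕ) (P : Subgroup G) {d : ℕ} (x : Fin d → G) (l : Fin d → ℕ) : Prop where
  mem : ∀ i, x i ∈ P
  ord : ∀ i, x i ^ (p ^ l i) = 1
  gen : P ≤ Subgroup.closure (Set.range x) ⊔ pw p P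

/-- there is a system of generators with minimal sum of the `l i`. -/
lemma exists_min (hG : IsPGroup p G) (P : Subgroup G) :
    ∃ (d : ℕ) (x : Fin d → G) (l : Fin d → ℕ), Gens p P x l ∧
      ∀ (y : Fin d → G) (m : Fin d → ℕ), Gens p P y m → ∑ i, l i ≤ ∑ i, m i := by
  obtain ⟨E, hE⟩ := exists_bot hG
  let d := Nat.card P
  let x₀ : Fin d → G := fun i => ((Finite.equivFin P).symm i : G)
  have h0 : Gens p P x₀ (fun _ => E) := by
    refine ⟨fun i => ((Finite.equivFin P).symm i).2, fun i => hE _, ?_⟩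
    refine le_trans ?_ le_sup_left
    intro g hg
    refine Subgroup.subset_closure ⟨Finite.equivFin P ⟨g, hg⟩, ?_⟩
    simp [x₀]
  let Q : ℕ → Prop := fun s => ∃ (y : Fin d → G) (m : Fin d → ℕ), Gens p P y m ∧ ∑ i, m i = s
  have hQ : ∃ s, Q s := ⟨_, x₀, _, h0, rfl⟩
  classical
  obtain ⟨x, l, hx, hl⟩ := Nat.find_spec hQ
  refine ⟨d, x, l, hx, fun y m hy => ?_⟩
  rw [hl]
  exact Nat.find_min' hQ ⟨y, m, hy, rfl⟩

/-- commuting modulo `P ^ (p ^ (e + 1))`. -/
lemma commute_mod (S : Star p P j) (hG : IsPGroup p G) (e : ℕ) [hAn : (pw (p ^ (e + 1)) P).Normal]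
    {a b : G} (ha : a ∈ pw (p ^ e) P) (hb : b ∈ P) :
    Commute (QuotientGroup.mk' (pw (p ^ (e + 1)) P) a) (QuotientGroup.mk' (pw (p ^ (e + 1)) P) b) := by
  change _ * _ = _ * _
  rw [← commutatorElement_eq_one_iff_mul_comm, ← map_commutatorElement]
  refine (QuotientGroup.eq_one_iff _).2 ?_
  exact pw_anti (by omega) (comm_pw S hG _ (Subgroup.commutator_mem_commutator ha hb))

/-- `cp x c ^ (p ^ e) = cp x (p ^ e c)` modulo `P ^ (p ^ (e + 1))`. -/
lemma cp_pow_mod (S : Star p P j) (hG : IsPGroup p G) {d : ℕ} {x : Fin d → G} (hx : ∀ i, x i ∈ P)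
    (c : Fin d → ℕ) (e : ℕ) :
    (cp x (fun i => p ^ e * c i))⁻¹ * cp x c ^ (p ^ e) ∈ pw (p ^ (e + 1)) P := by
  have hAn : (pw (p ^ (e + 1)) P).Normal := pw_normal S.normal
  let π := QuotientGroup.mk' (pw (p ^ (e + 1)) P)
  have hker : ∀ g : G, π g = 1 ↔ g ∈ pw (p ^ (e + 1)) P := fun g => QuotientGroup.eq_one_iff g
  rw [← hker, map_mul, map_inv, inv_mul_eq_one]
  induction d with
  | zero => rw [cp_nil, cp_nil, one_pow]
  | succ d ih =>
    rw [cp_succ, cp_succ]
    have h1 := hom_gen S hG (N := 0) (u := x 0 ^ c 0) (P.pow_mem (hx 0) _)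
      (t := cp (fun i => x (Fin.succ i)) (fun i => c (Fin.succ i)))
      (by
        rw [pow_zero]
        have : cp (fun i => x (Fin.succ i)) (fun i => c (Fin.succ i)) ∈ P :=
          cp_mem fun i => P.pow_mem (hx _) _
        simpa using mem_pw (m := 1) this) e
    rw [zero_add, ← hker, map_mul, map_inv, inv_mul_eq_one] at h1
    have h2 := ih (x := fun i => x (Fin.succ i)) (fun i => hx _) (fun i => c (Fin.succ i))
    rw [← h1, map_mul, map_mul, h2, ← pow_mul, mul_comm (c 0)]

/-- independence for a minimal system. -/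
lemma indep (S : Star p P j) (hG : IsPGroup p G) {d : ℕ} {x : Fin d → G} {l : Fin d → ℕ}
    (h : Gens p P x l)
    (hmin : ∀ (y : Fin d → G) (m : Fin d → ℕ), Gens p P y m → ∑ i, l i ≤ ∑ i, m i)
    (e : ℕ) (c : Fin d → ℕ) (hc : cp x (fun i => p ^ e * c i) ∈ pw (p ^ (e + 1)) P) :
    ∀ i, e < l i → p ∣ c i := by
  classical
  intro i₀ hi₀
  by_contra hndvd
  let c' : Fin d → ℕ := fun i => if e < l i then c i else 0
  have hc' : cp x (fun i => p ^ e * c' i) = cp x (fun i => p ^ e * c i) := by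
    apply cp_congr
    intro i
    by_cases hi : e < l i
    · simp only [c', if_pos hi]
    · simp only [c', if_neg hi, mul_zero, pow_zero]
      obtain ⟨k, hk⟩ := Nat.exists_eq_add_of_le (not_lt.1 hi)
      rw [hk, pow_add, mul_assoc, pow_mul, h.ord i, one_pow]
  set y := cp x c' with hy
  have hyP : y ∈ P := cp_mem fun i => P.pow_mem (h.mem i) _
  have hAn : (pw (p ^ (e + 1)) P).Normal := pw_normal S.normal
  have hye : y ^ (p ^ e) ∈ pw (p ^ (e + 1)) P := by
    have h1 := cp_pow_mod S hG h.mem c' e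
    rw [hc'] at h1
    exact ((pw (p ^ (e + 1)) P).mul_mem_cancel_left ((pw (p ^ (e + 1)) P).inv_mem hc)).1 h1
  obtain ⟨y', hy'P, hy'1, hy'2⟩ := exact_lift S hG e hyP hye
  -- the new system
  let x' : Fin d → G := Function.update x i₀ y'
  let l' : Fin d → ℕ := Function.update l i₀ e
  have hnew : Gens p P x' l' := by
    refine ⟨fun i => ?_, fun i => ?_, ?_⟩
    · by_cases hi : i = i₀
      · subst hi; simp only [x', Function.update_self]; exact hy'P
      · simp only [x', Function.update_of_ne hi]; exact h.mem i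
    · by_cases hi : i = i₀
      · subst hi; simp only [x', l', Function.update_self]; exact hy'1
      · simp only [x', l', Function.update_of_ne hi]; exact h.ord i
    · set K := Subgroup.closure (Set.range x') ⊔ pw p P with hK
      have hxK : ∀ i, i ≠ i₀ → x i ∈ K := by
        intro i hi
        refine (le_sup_left : _ ≤ K) (Subgroup.subset_closure ⟨i, ?_⟩)
        simp only [x', Function.update_of_ne hi]
      have hy'K : y' ∈ K := by
        refine (le_sup_left : _ ≤ K) (Subgroup.subset_closure ⟨i₀, ?_⟩)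
        simp only [x', Function.update_self]
      have hyK : y ∈ K := by
        have : y = y' * (y'⁻¹ * y) := by group
        rw [this]
        exact K.mul_mem hy'K ((le_sup_right : pw p P ≤ K) hy'2)
      have h1 : x i₀ ^ c' i₀ ∈ K :=
        mem_of_cp_mem i₀ (fun i hi => K.pow_mem (hxK i hi) _) hyK
      have h2 : c' i₀ = c i₀ := by simp only [c', if_pos hi₀]
      rw [h2] at h1
      have h3 : x i₀ ^ p ∈ K := (le_sup_right : pw p P ≤ K) (mem_pw (h.mem i₀))
      have h4 : x i₀ ∈ K := by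
        have hco : IsCoprime ((c i₀ : ℕ) : ℤ) ((p : ℕ) : ℤ) :=
          Nat.isCoprime_iff_coprime.2 ((Nat.Prime.coprime_iff_not_dvd hp.out).2 hndvd).symm
        obtain ⟨s, t, hst⟩ := hco
        have h5 : x i₀ = (x i₀ ^ c i₀) ^ s * (x i₀ ^ p) ^ t := by
          rw [← zpow_natCast, ← zpow_natCast, ← zpow_mul, ← zpow_mul, ← zpow_add,
            mul_comm _ s, mul_comm _ t, hst, zpow_one]
        rw [h5]
        exact K.mul_mem (K.zpow_mem h1 _) (K.zpow_mem h3 _)
      refine h.gen.trans (sup_le ?_ le_sup_right)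
      rw [Subgroup.closure_le]
      rintro _ ⟨i, rfl⟩
      by_cases hi : i = i₀
      · subst hi; exact h4
      · exact hxK i hi
  have h6 := hmin x' l' hnew
  have h7 : ∑ i, l' i < ∑ i, l i := by
    apply Finset.sum_lt_sum
    · intro i _
      by_cases hi : i = i₀
      · subst hi; simp only [l', Function.update_self]; exact hi₀.le
      · simp only [l', Function.update_of_ne hi]; exact le_rfl
    · exact ⟨i₀, Finset.mem_univ _, by simp only [l', Function.update_self]; exact hi₀⟩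
  omega

/-- spanning of the layers. -/
lemma span (S : Star p P j) (hG : IsPGroup p G) {d : ℕ} {x : Fin d → G} {l : Fin d → ℕ}
    (h : Gens p P x l) (m : ℕ) {g : G} (hg : g ∈ pw (p ^ m) P) :
    ∃ c : Fin d → ℕ, (cp x (fun i => p ^ m * c i))⁻¹ * g ∈ pw (p ^ (m + 1)) P := by
  classical
  obtain ⟨u, hu, rfl⟩ := exists_root S hG m hg
  have hAn : (pw (p ^ (m + 1)) P).Normal := pw_normal S.normal
  set A := pw (p ^ (m + 1)) P with hA
  let π := QuotientGroup.mk' A
  have hker : ∀ g : G, π g = 1 ↔ g ∈ A := fun g => QuotientGroup.eq_one_iff g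
  -- the property
  let Q : G → Prop := fun u => u ∈ P ∧ ∃ c : Fin d → ℕ, π (cp x (fun i => p ^ m * c i)) = π (u ^ (p ^ m))
  have hQ1 : Q 1 := ⟨P.one_mem, fun _ => 0, by
    have : cp x (fun i => p ^ m * (fun _ : Fin d => 0) i) = 1 := by
      rw [← cp_zero x]
      exact cp_congr fun i => by simp
    rw [this, one_pow]⟩
  have hQmul : ∀ a b, Q a → Q b → Q (a * b) := by
    rintro a b ⟨ha, c, hc⟩ ⟨hb, c', hc'⟩
    refine ⟨P.mul_mem ha hb, fun i => c i + c' i, ?_⟩
    have h1 := hom_gen S hG (N := 0) ha (t := b) (by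
      rw [pow_zero]; simpa using mem_pw (m := 1) hb) m
    rw [zero_add, ← hker, map_mul, map_inv, inv_mul_eq_one, map_mul, ← hc, ← hc'] at h1
    rw [← h1]
    have h2 : cp (fun i => π (x i)) (fun i => p ^ m * c i + p ^ m * c' i) =
        cp (fun i => π (x i)) (fun i => p ^ m * c i) * cp (fun i => π (x i)) (fun i => p ^ m * c' i) := by
      apply cp_add
      intro i k
      rw [← map_pow]
      apply commute_mod S hG m _ (h.mem k)
      rw [pow_mul]
      exact (pw (p ^ m) P).pow_mem (mem_pw (h.mem i)) _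
    rw [cp_map, cp_map, cp_map, ← h2]
    congr 1
    funext i
    ring
  have hQpow : ∀ a, Q a → ∀ n : ℕ, Q (a ^ n) := by
    intro a ha n
    induction n with
    | zero => rw [pow_zero]; exact hQ1
    | succ n ih => rw [pow_succ]; exact hQmul _ _ ih ha
  have hQinv : ∀ a, Q a → Q a⁻¹ := by
    intro a ha
    have h1 : a⁻¹ = a ^ (Nat.card G - 1) := by
      rw [inv_eq_iff_mul_eq_one, ← pow_succ', Nat.sub_add_cancel Nat.card_pos]
      exact pow_card_eq_one'
    rw [h1]; exact hQpow a ha _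
  have hu' : u ∈ Subgroup.closure (Set.range x ∪ (pw p P : Set G)) := by
    rw [Subgroup.closure_union, Subgroup.closure_eq]
    exact h.gen hu
  have hQu : Q u := by
    refine Subgroup.closure_induction (p := fun u _ => Q u) ?_ hQ1 (fun a b _ _ => hQmul a b)
      (fun a _ => hQinv a) hu'
    rintro a (⟨i, rfl⟩ | ha)
    · refine ⟨h.mem i, Pi.single i 1, ?_⟩
      congr 1
      have : (fun k => p ^ m * (Pi.single i 1 : Fin d → ℕ) k) = Pi.single i (p ^ m) := by
        funext k
        by_cases hk : k = i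
        · subst hk; rw [Pi.single_eq_same, Pi.single_eq_same, mul_one]
        · rw [Pi.single_eq_of_ne hk, Pi.single_eq_of_ne hk, mul_zero]
      rw [this, cp_single]
    · refine ⟨pw_self _ _ ha, fun _ => 0, ?_⟩
      have h1 : cp x (fun i => p ^ m * (fun _ : Fin d => 0) i) = 1 := by
        rw [← cp_zero x]
        exact cp_congr fun i => by simp
      rw [h1, map_one]
      symm
      rw [hker]
      have h2 : a ∈ pw (p ^ 1) P := by rw [pow_one]; exact ha
      have h3 := pow_mem_pw S hG h2 m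
      rw [add_comm] at h3
      exact h3
  obtain ⟨_, c, hc⟩ := hQu
  refine ⟨c, ?_⟩
  rw [← hker, map_mul, map_inv, inv_mul_eq_one]
  exact hc

/-- **Exact basis.** -/
theorem exact_basis (S : Star p P j) (hG : IsPGroup p G) :
    ∃ (d : ℕ) (x : Fin d → G) (l : Fin d → ℕ), (∀ i, x i ∈ P) ∧ (∀ i, x i ^ (p ^ l i) = 1) ∧
      (∀ (e : ℕ) (g : G), g ∈ pw (p ^ e) P → ∃ a : Fin d → ℕ, (∀ i, a i < p ^ l i) ∧
        (∀ i, p ^ e ∣ a i) ∧ cp x a = g) ∧
      (∀ a b : Fin d → ℕ, (∀ i, a i < p ^ l i) → (∀ i, b i < p ^ l i) → cp x a = cp x b → a = b) := by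
  obtain ⟨d, x, l, h, hmin⟩ := exists_min hG P
  refine ⟨d, x, l, h.mem, h.ord, ?_, ?_⟩
  · intro e g hg
    have key : ∀ N : ℕ, ∃ a : Fin d → ℕ, (∀ i, p ^ e ∣ a i) ∧ (cp x a)⁻¹ * g ∈ pw (p ^ (e + N)) P := by
      intro N
      induction N with
      | zero => exact ⟨fun _ => 0, fun _ => dvd_zero _, by rw [cp_zero]; simpa using hg⟩
      | succ N ih =>
        obtain ⟨a, ha, h1⟩ := ih
        obtain ⟨c, hc⟩ := span S hG h _ h1
        refine ⟨fun i => a i + p ^ (e + N) * c i, fun i => dvd_add (ha i)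
          ((pow_dvd_pow p (Nat.le_add_right e N)).mul_right _), ?_⟩
        have hAn : (pw (p ^ (e + N + 1)) P).Normal := pw_normal S.normal
        let π := QuotientGroup.mk' (pw (p ^ (e + N + 1)) P)
        have hker : ∀ g : G, π g = 1 ↔ g ∈ pw (p ^ (e + N + 1)) P := fun g => QuotientGroup.eq_one_iff g
        rw [← add_assoc, ← hker, map_mul, map_inv, inv_mul_eq_one]
        rw [← hker, map_mul, map_inv, inv_mul_eq_one, map_mul, map_inv] at hc
        rw [cp_map, cp_add (fun i k => ?_), ← cp_map, ← cp_map, hc, mul_inv_cancel_left]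
        rw [← map_pow]
        apply commute_mod S hG _ _ (h.mem k)
        rw [pow_mul]
        exact (pw (p ^ (e + N)) P).pow_mem (mem_pw (h.mem i)) _
    obtain ⟨E, hE⟩ := exists_bot hG
    obtain ⟨a, ha, h1⟩ := key E
    have h5 : pw (p ^ (e + E)) P = ⊥ := pw_bot fun g => by
      rw [pow_add, mul_comm, pow_mul, hE, one_pow]
    rw [h5, Subgroup.mem_bot, inv_mul_eq_one] at h1
    refine ⟨fun i => a i % p ^ l i, fun i => Nat.mod_lt _ (pow_pos hp.out.pos _), fun i => ?_, ?_⟩
    · rcases le_total e (l i) with hle | hle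
      · exact (Nat.dvd_mod_iff (pow_dvd_pow p hle)).2 (ha i)
      · have : a i % p ^ l i = 0 := Nat.mod_eq_zero_of_dvd ((pow_dvd_pow p hle).trans (ha i))
        change p ^ e ∣ a i % p ^ l i
        rw [this]; exact dvd_zero _
    · rw [← h1]
      apply cp_congr
      intro i
      conv_rhs => rw [← Nat.mod_add_div (a i) (p ^ l i), pow_add, pow_mul, h.ord i, one_pow, mul_one]
  · intro a b ha hb hab
    have key : ∀ e : ℕ, ∀ i, a i % p ^ e = b i % p ^ e := by
      intro e
      induction e with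
      | zero => intro i; rw [pow_zero, Nat.mod_one, Nat.mod_one]
      | succ e ih =>
        have hAn : (pw (p ^ (e + 1)) P).Normal := pw_normal S.normal
        let π := QuotientGroup.mk' (pw (p ^ (e + 1)) P)
        have hker : ∀ g : G, π g = 1 ↔ g ∈ pw (p ^ (e + 1)) P := fun g => QuotientGroup.eq_one_iff g
        have hcomm : ∀ (f : Fin d → ℕ) (i k : Fin d),
            Commute (π (x i) ^ (p ^ e * f i)) (π (x k)) := by
          intro f i k
          rw [← map_pow]
          apply commute_mod S hG _ _ (h.mem k)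
          rw [pow_mul]
          exact (pw (p ^ e) P).pow_mem (mem_pw (h.mem i)) _
        have hdec : ∀ f : Fin d → ℕ, π (cp x f) =
            cp (fun i => π (x i)) (fun i => f i % p ^ e) *
              cp (fun i => π (x i)) (fun i => p ^ e * (f i / p ^ e)) := by
          intro f
          rw [← cp_add (fun i k => hcomm (fun i => f i / p ^ e) i k), cp_map]
          congr 1
          funext i
          exact (Nat.mod_add_div (f i) (p ^ e)).symm
        have h1 : cp (fun i => π (x i)) (fun i => p ^ e * (a i / p ^ e)) =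
            cp (fun i => π (x i)) (fun i => p ^ e * (b i / p ^ e)) := by
          have h2 := hdec a
          rw [hab, hdec b] at h2
          have h3 : (fun i => b i % p ^ e) = fun i => a i % p ^ e := funext fun i => (ih i).symm
          rw [h3] at h2
          exact (mul_left_cancel h2).symm
        -- c = a' + (p - 1) b'
        have h4 : cp x (fun i => p ^ e * (a i / p ^ e + (p - 1) * (b i / p ^ e))) ∈
            pw (p ^ (e + 1)) P := by
          rw [← hker, cp_map]
          have h5 : (fun i => p ^ e * (a i / p ^ e + (p - 1) * (b i / p ^ e))) =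
              fun i => p ^ e * (a i / p ^ e) + p ^ e * ((p - 1) * (b i / p ^ e)) := by
            funext i; ring
          rw [h5, cp_add (fun i k => hcomm (fun i => (p - 1) * (b i / p ^ e)) i k), h1,
            ← cp_add (fun i k => hcomm (fun i => (p - 1) * (b i / p ^ e)) i k)]
          have h6 : (fun i => p ^ e * (b i / p ^ e) + p ^ e * ((p - 1) * (b i / p ^ e))) =
              fun i => p ^ (e + 1) * (b i / p ^ e) := by
            funext i
            have hp1 : p = 1 + (p - 1) := by have := hp.out.pos; omega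
            calc p ^ e * (b i / p ^ e) + p ^ e * ((p - 1) * (b i / p ^ e))
                = p ^ e * (1 + (p - 1)) * (b i / p ^ e) := by ring
              _ = p ^ (e + 1) * (b i / p ^ e) := by rw [← hp1, pow_succ]
          rw [h6, ← cp_map, hker]
          apply cp_mem
          intro i
          rw [pow_mul]
          exact (pw (p ^ (e + 1)) P).pow_mem (mem_pw (h.mem i)) _
        have h7 := indep S hG h hmin e _ h4
        intro i
        by_cases hi : e < l i
        · have h8 := h7 i hi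
          have h9 : (a i / p ^ e) % p = (b i / p ^ e) % p := by
            have h10 : a i / p ^ e + (p - 1) * (b i / p ^ e) + (b i / p ^ e) ≡
                0 + (b i / p ^ e) [MOD p] := Nat.ModEq.add_right _ ((Nat.modEq_zero_iff_dvd).2 h8)
            have h11 : a i / p ^ e + (p - 1) * (b i / p ^ e) + (b i / p ^ e) =
                a i / p ^ e + p * (b i / p ^ e) := by
              have hp1 : p = (p - 1) + 1 := by have := hp.out.pos; omega
              calc a i / p ^ e + (p - 1) * (b i / p ^ e) + (b i / p ^ e)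
                  = a i / p ^ e + ((p - 1) + 1) * (b i / p ^ e) := by ring
                _ = a i / p ^ e + p * (b i / p ^ e) := by rw [← hp1]
            rw [h11, zero_add] at h10
            have h12 : a i / p ^ e + p * (b i / p ^ e) ≡ a i / p ^ e [MOD p] := by
              unfold Nat.ModEq
              rw [Nat.add_mul_mod_self_left]
            exact h12.symm.trans h10
          rw [pow_succ, Nat.mod_mul, Nat.mod_mul, ih i, h9]
        · have h13 : l i ≤ e := not_lt.1 hi
          have h14 : p ^ l i ≤ p ^ e := Nat.pow_le_pow_right hp.out.pos h13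
          have h15 := ih i
          rw [Nat.mod_eq_of_lt ((ha i).trans_le h14), Nat.mod_eq_of_lt ((hb i).trans_le h14)] at h15
          rw [h15]
    funext i
    have h16 := key (l i) i
    rwa [Nat.mod_eq_of_lt (ha i), Nat.mod_eq_of_lt (hb i)] at h16

/-- **Exact letters modulo `Z`.** -/
theorem exact_letters (S : Star p P j) (hG : IsPGroup p G) (Z : Subgroup G) (hZ : Z.Normal) :
    ∃ (d : ℕ) (x : Fin d → G) (l : Fin d → ℕ), (∀ i, x i ∈ P) ∧ (∀ i, x i ^ (p ^ l i) ∈ Z) ∧
      (∀ (e : ℕ) (g : G), g ∈ pw (p ^ e) P → ∃ a : Fin d → ℕ, (∀ i, a i < p ^ l i) ∧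
        (∀ i, p ^ e ∣ a i) ∧ (cp x a)⁻¹ * g ∈ Z ∧ (cp x a)⁻¹ * g ∈ pw (p ^ e) P) ∧
      (∀ a b : Fin d → ℕ, (∀ i, a i < p ^ l i) → (∀ i, b i < p ^ l i) →
        ∀ z ∈ Z, ∀ z' ∈ Z, cp x a * z = cp x b * z' → a = b) := by
  obtain ⟨d, y, l, h1, h2, h3, h4⟩ := exact_basis (S.quot Z) (hG.to_quotient Z)
  let π := QuotientGroup.mk' Z
  have hker : ∀ g : G, π g = 1 ↔ g ∈ Z := fun g => QuotientGroup.eq_one_iff g
  choose x hxP hxy using h1
  have hxy' : (fun i => π (x i)) = y := funext hxy
  refine ⟨d, x, l, hxP, fun i => ?_, ?_, ?_⟩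
  · rw [← hker, map_pow, hxy i]; exact h2 i
  · intro e g hg
    have hg' : π g ∈ pw (p ^ e) (P.map π) := by
      have : pw (p ^ e) P ≤ (pw (p ^ e) (P.map π)).comap π := by
        rw [pw_le]
        intro r hr
        rw [Subgroup.mem_comap, map_pow]
        exact mem_pw ⟨r, hr, rfl⟩
      exact this hg
    obtain ⟨a, ha, hd, hag⟩ := h3 e _ hg'
    refine ⟨a, ha, hd, ?_, ?_⟩
    · rw [← hker, map_mul, map_inv, inv_mul_eq_one, cp_map, hxy']; exact hag
    · refine Subgroup.mul_mem _ (Subgroup.inv_mem _ (cp_mem fun i => ?_)) hg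
      obtain ⟨k, hk⟩ := hd i
      rw [hk, pow_mul]
      exact Subgroup.pow_mem _ (mem_pw (hxP i)) _
  · intro a b ha hb z hz z' hz' hab
    apply h4 a b ha hb
    have h5 : π (cp x a * z) = π (cp x b * z') := by rw [hab]
    rw [map_mul, map_mul, (hker z).2 hz, (hker z').2 hz', mul_one, mul_one, cp_map, cp_map, hxy'] at h5
    exact h5

end basis

end Pool.Agent.Helper10.RK
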