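import Mathlib
import Pool.Agent.Helper46.RK.HallPetrescu

/-! Project RK (MP_aa96c4_al): cubes (Host-Kra, Leibman) in a filtered group and coordinates.

`hk F m ws` is the set of functions on the cube `Q ws.length` which are polynomial with weights `ws`
and level `m`. If every element of `F m` is uniquely a product of elements of `K i ⊓ F m`, the
coordinates of a polynomial cube are polynomial cubes. -/

namespace Pool.Agent.Helper10.RK

open Pool.Agent.Helper46.RK (NSer)
open scoped commutatorElement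

/-- the discrete cube. -/
def Q : ℕ → Type
  | 0 => Unit
  | n + 1 => Bool × Q n

instance finiteQ : ∀ n, Finite (Q n)
  | 0 => inferInstanceAs (Finite Unit)
  | n + 1 => by
    have := finiteQ n
    exact inferInstanceAs (Finite (Bool × Q n))

section hk

variable {X : Type*} [Group X]

/-- the face `b`. -/
def fc {Y : Type*} {n : ℕ} (b : Bool) (c : Q (n + 1) → Y) : Q n → Y := fun e => c (b, e)

@[simp] lemma fc_mul {n : ℕ} (b : Bool) (c d : Q (n + 1) → X) : fc b (c * d) = fc b c * fc b d := rfl
@[simp] lemma fc_inv {n : ℕ} (b : Bool) (c : Q (n + 1) → X) : fc b c⁻¹ = (fc b c)⁻¹ := rfl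
@[simp] lemma fc_one {n : ℕ} (b : Bool) : fc b (1 : Q (n + 1) → X) = 1 := rfl

lemma cube_ext {Y : Type*} {n : ℕ} {c d : Q (n + 1) → Y} (h0 : fc false c = fc false d)
    (h1 : fc true c = fc true d) : c = d := by
  funext ⟨b, e⟩
  cases b
  · exact congrFun h0 e
  · exact congrFun h1 e

/-- glue two faces. -/
def gl {Y : Type*} {n : ℕ} (c d : Q n → Y) : Q (n + 1) → Y := fun e => bif e.1 then d e.2 else c e.2

@[simp] lemma fc_false_gl {Y : Type*} {n : ℕ} (c d : Q n → Y) : fc false (gl c d) = c := rfl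
@[simp] lemma fc_true_gl {Y : Type*} {n : ℕ} (c d : Q n → Y) : fc true (gl c d) = d := rfl

/-- polynomial cubes with weights `ws`, level `m`. -/
def hk (F : ℕ → Subgroup X) : ℕ → (ws : List ℕ) → (Q ws.length → X) → Prop
  | m, [], c => c () ∈ F m
  | m, w :: ws, c => hk F m ws (fc false c) ∧ hk F (m + w) ws ((fc false c)⁻¹ * fc true c)

lemma hk_nil {F : ℕ → Subgroup X} {m : ℕ} {c : Q 0 → X} : hk F m [] c ↔ c () ∈ F m := Iff.rfl

lemma hk_cons {F : ℕ → Subgroup X} {m w : ℕ} {ws : List ℕ} {c : Q (ws.length + 1) → X} :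
    hk F m (w :: ws) c ↔ hk F m ws (fc false c) ∧ hk F (m + w) ws ((fc false c)⁻¹ * fc true c) :=
  Iff.rfl

variable {F : ℕ → Subgroup X}

lemma hk_one (F : ℕ → Subgroup X) (m : ℕ) (ws : List ℕ) : hk F m ws 1 := by
  induction ws generalizing m with
  | nil => exact (F m).one_mem
  | cons w ws ih =>
    refine ⟨ih m, ?_⟩
    rw [fc_one, fc_one, inv_one, one_mul]
    exact ih _

lemma hk_anti (hF : Antitone F) {ws : List ℕ} : ∀ {m m' : ℕ} {c : Q ws.length → X}, m' ≤ m →
    hk F m ws c → hk F m' ws c := by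
  induction ws with
  | nil => intro m m' c h hc; exact hF h hc
  | cons w ws ih =>
    intro m m' c h hc
    exact ⟨ih h hc.1, ih (by omega) hc.2⟩

/-- the package of closure properties. -/
structure Clo (F : ℕ → Subgroup X) (ws : List ℕ) : Prop where
  mul : ∀ {m} {c d : Q ws.length → X}, hk F m ws c → hk F m ws d → hk F m ws (c * d)
  inv : ∀ {m} {c : Q ws.length → X}, hk F m ws c → hk F m ws c⁻¹
  com : ∀ {m m'} {c d : Q ws.length → X}, hk F m ws c → hk F m' ws d → hk F (m + m') ws ⁅c, d⁆

namespace Clo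

variable {ws : List ℕ}

lemma conj (h : Clo F ws) (hF : Antitone F) {m i : ℕ} {c d : Q ws.length → X}
    (hc : hk F i ws c) (hd : hk F m ws d) : hk F m ws (c * d * c⁻¹) := by
  have h1 : c * d * c⁻¹ = ⁅c, d⁆ * d := by rw [commutatorElement_def]; group
  rw [h1]
  exact h.mul (hk_anti hF (by omega) (h.com hc hd)) hd

lemma conj' (h : Clo F ws) (hF : Antitone F) {m i : ℕ} {c d : Q ws.length → X}
    (hc : hk F i ws c) (hd : hk F m ws d) : hk F m ws (c⁻¹ * d * c) := by
  have := h.conj hF (h.inv hc) hd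
  rwa [inv_inv] at this

end Clo

lemma fc_com {n : ℕ} (b : Bool) (c d : Q (n + 1) → X) : fc b ⁅c, d⁆ = ⁅fc b c, fc b d⁆ := rfl

/-- **Lazard - Leibman.** -/
theorem clo (hF : NSer F) : ∀ ws : List ℕ, Clo F ws := by
  intro ws
  induction ws with
  | nil =>
    refine ⟨fun {m c d} hc hd => (F m).mul_mem hc hd, fun {m c} hc => (F m).inv_mem hc,
      fun {m m' c d} hc hd => hF.comm m m' (Subgroup.commutator_mem_commutator hc hd)⟩
  | cons w ws ih =>
    have an := hF.anti
    refine ⟨?_, ?_, ?_⟩
    · intro m c d hc hd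
      refine ⟨ih.mul hc.1 hd.1, ?_⟩
      have h1 : (fc false (c * d))⁻¹ * fc true (c * d) =
          ((fc false d)⁻¹ * ((fc false c)⁻¹ * fc true c) * fc false d) * ((fc false d)⁻¹ * fc true d) := by
        rw [fc_mul, fc_mul]; group
      rw [h1]
      exact ih.mul (ih.conj' an hd.1 hc.2) hd.2
    · intro m c hc
      refine ⟨ih.inv hc.1, ?_⟩
      have h1 : (fc false c⁻¹)⁻¹ * fc true c⁻¹ =
          fc false c * ((fc false c)⁻¹ * fc true c)⁻¹ * (fc false c)⁻¹ := by
        rw [fc_inv, fc_inv]; group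
      rw [h1]
      exact ih.conj an hc.1 (ih.inv hc.2)
    · intro m m' g h hg hh
      refine ⟨ih.com hg.1 hh.1, ?_⟩
      set g0 := fc false g with hg0
      set h0 := fc false h with hh0
      set a := (fc false g)⁻¹ * fc true g with ha
      set b := (fc false h)⁻¹ * fc true h with hb
      have e1 : fc true g = g0 * a := by rw [ha, hg0]; group
      have e2 : fc true h = h0 * b := by rw [hb, hh0]; group
      rw [fc_com, fc_com, e1, e2, ← hg0, ← hh0]
      have key : ⁅g0, h0⁆⁻¹ * ⁅g0 * a, h0 * b⁆ =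
          (⁅g0, h0⁆⁻¹ * (g0 * ⁅a, h0 * b⁆ * g0⁻¹) * ⁅g0, h0⁆) * (h0 * ⁅g0, b⁆ * h0⁻¹) := by
        simp only [commutatorElement_def]; group
      rw [key]
      have hb' : hk F m' ws (h0 * b) := ih.mul hh.1 (hk_anti an (by omega) hh.2)
      have n1 : hk F (m + m' + w) ws ⁅a, h0 * b⁆ := by
        have := ih.com hg.2 hb'
        rwa [show m + w + m' = m + m' + w by omega] at this
      have n2 : hk F (m + m' + w) ws ⁅g0, b⁆ := by
        have := ih.com hg.1 hh.2
        rwa [show m + (m' + w) = m + m' + w by omega] at this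
      exact ih.mul (ih.conj' an (ih.com hg.1 hh.1) (ih.conj an hg.1 n1)) (ih.conj an hh.1 n2)

/-- the group of polynomial cubes. -/
def HK (hF : NSer F) (m : ℕ) (ws : List ℕ) : Subgroup (Q ws.length → X) where
  carrier := {c | hk F m ws c}
  one_mem' := hk_one F m ws
  mul_mem' := fun hc hd => (clo hF ws).mul hc hd
  inv_mem' := fun hc => (clo hF ws).inv hc

lemma mem_HK {hF : NSer F} {m : ℕ} {ws : List ℕ} {c : Q ws.length → X} :
    c ∈ HK hF m ws ↔ hk F m ws c := Iff.rfl

/-- values. -/
lemma hk_val (hF : Antitone F) {ws : List ℕ} : ∀ {m : ℕ} {c : Q ws.length → X}, hk F m ws c →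
    ∀ e, c e ∈ F m := by
  induction ws with
  | nil => intro m c hc e; exact hc
  | cons w ws ih =>
    rintro m c hc ⟨b, e⟩
    have h0 : c (false, e) ∈ F m := ih hc.1 e
    cases b
    · exact h0
    · have h1 : (c (false, e))⁻¹ * c (true, e) ∈ F (m + w) := ih hc.2 e
      have h2 := (F m).mul_mem h0 (hF (Nat.le_add_right m w) h1)
      rwa [mul_inv_cancel_left] at h2

/-- constant cubes. -/
lemma hk_const (F : ℕ → Subgroup X) {m : ℕ} {x : X} (hx : x ∈ F m) (ws : List ℕ) :
    hk F m ws (fun _ => x) := by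
  induction ws with
  | nil => exact hx
  | cons w ws ih =>
    refine ⟨ih, ?_⟩
    have h := hk_one F (m + w) ws
    convert h using 1
    funext e
    exact inv_mul_cancel x

/-- homomorphisms map polynomial cubes to polynomial cubes. -/
lemma hk_map {Y : Type*} [Group Y] {F' : ℕ → Subgroup Y} (f : X →* Y) (hf : ∀ m, ∀ x ∈ F m, f x ∈ F' m)
    {ws : List ℕ} : ∀ {m : ℕ} {c : Q ws.length → X}, hk F m ws c → hk F' m ws (fun e => f (c e)) := by
  induction ws with
  | nil => intro m c hc; exact hf _ _ hc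
  | cons w ws ih =>
    intro m c hc
    refine ⟨ih hc.1, ?_⟩
    have h1 := ih hc.2
    have h2 : (fun e => f (((fc false c)⁻¹ * fc true c) e)) =
        (fc false (fun e => f (c e)))⁻¹ * fc true (fun e => f (c e)) := by
      funext e
      change f ((c (false, e))⁻¹ * c (true, e)) = (f (c (false, e)))⁻¹ * f (c (true, e))
      rw [map_mul, map_inv]
    rwa [h2] at h1

lemma hk_mono {F' : ℕ → Subgroup X} (hf : ∀ m, F m ≤ F' m) {ws : List ℕ} {m : ℕ}
    {c : Q ws.length → X} (hc : hk F m ws c) : hk F' m ws c :=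
  hk_map (MonoidHom.id X) (fun m _ hx => hf m hx) hc

/-- the word `y x_1 ^ e_1 ... x_q ^ e_q`, as a function on the cube; the second components are the
weights of the letters `x_i`. -/
def wd : X → (l : List (X × ℕ)) → Q (l.map Prod.snd).length → X
  | y, [], _ => y
  | y, q :: l, e => bif e.1 then wd (y * q.1) l e.2 else wd y l e.2

lemma fc_false_wd (y : X) (q : X × ℕ) (l : List (X × ℕ)) : fc false (wd y (q :: l)) = wd y l := rfl

lemma fc_true_wd (y : X) (q : X × ℕ) (l : List (X × ℕ)) : fc true (wd y (q :: l)) = wd (y * q.1) l := rfl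

lemma wd_mul (y z : X) (l : List (X × ℕ)) : wd (y * z) l = (fun _ => y) * wd z l := by
  induction l generalizing z with
  | nil => rfl
  | cons q l ih =>
    apply cube_ext
    · rw [fc_false_wd, ih]; rfl
    · rw [fc_true_wd, mul_assoc, ih]; rfl

end hk

section card

variable {X : Type*} [Group X] {F : ℕ → Subgroup X}

/-- the recursion for cubes. -/
def hkEquiv (F : ℕ → Subgroup X) (m w : ℕ) (ws : List ℕ) :
    {c : Q (w :: ws).length → X // hk F m (w :: ws) c} ≃
      {c : Q ws.length → X // hk F m ws c} × {c : Q ws.length → X // hk F (m + w) ws c} where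
  toFun c := (⟨fc false c.1, c.2.1⟩, ⟨(fc false c.1)⁻¹ * fc true c.1, c.2.2⟩)
  invFun c := ⟨gl c.1.1 (c.1.1 * c.2.1), c.1.2, by
    rw [fc_false_gl, fc_true_gl, inv_mul_cancel_left]; exact c.2.2⟩
  left_inv c := by
    apply Subtype.ext
    apply cube_ext
    · rw [fc_false_gl]
    · rw [fc_true_gl, mul_inv_cancel_left]
  right_inv c := by
    apply Prod.ext
    · rfl
    · apply Subtype.ext
      change (fc false (gl c.1.1 (c.1.1 * c.2.1)))⁻¹ * fc true (gl c.1.1 (c.1.1 * c.2.1)) = c.2.1
      rw [fc_false_gl, fc_true_gl, inv_mul_cancel_left]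

lemma card_hk_cons (F : ℕ → Subgroup X) (m w : ℕ) (ws : List ℕ) :
    Nat.card {c : Q (w :: ws).length → X // hk F m (w :: ws) c} =
      Nat.card {c : Q ws.length → X // hk F m ws c} *
        Nat.card {c : Q ws.length → X // hk F (m + w) ws c} := by
  rw [Nat.card_congr (hkEquiv F m w ws), Nat.card_prod]

lemma card_hk_nil (F : ℕ → Subgroup X) (m : ℕ) :
    Nat.card {c : Q (List.length ([] : List ℕ)) → X // hk F m [] c} = Nat.card (F m) := by
  apply Nat.card_congr
  exact {
    toFun := fun c => ⟨c.1 (), c.2⟩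
    invFun := fun x => ⟨fun _ => x.1, x.2⟩
    left_inv := fun c => by
      apply Subtype.ext
      funext e
      rfl
    right_inv := fun x => rfl }

/-- ordered product of a family. -/
def op {r : ℕ} (u : Fin r → X) : X := (List.ofFn u).prod

lemma op_succ {r : ℕ} (u : Fin (r + 1) → X) : op u = u 0 * op (fun i => u i.succ) := by
  rw [op, List.ofFn_succ, List.prod_cons, op]

lemma op_mem {r : ℕ} {u : Fin r → X} {K : Subgroup X} (h : ∀ i, u i ∈ K) : op u ∈ K := by
  induction r with
  | zero => rw [op, List.ofFn_zero, List.prod_nil]; exact K.one_mem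
  | succ r ih => rw [op_succ]; exact K.mul_mem (h 0) (ih fun i => h i.succ)

lemma op_apply {r : ℕ} {E : Type*} (c : Fin r → E → X) (e : E) : op c e = op (fun i => c i e) := by
  induction r with
  | zero => simp [op, List.ofFn_zero]
  | succ r ih =>
    rw [op_succ, op_succ, Pi.mul_apply, ih]

end card

section coord

variable {X : Type*} [Group X] [Finite X] {F : ℕ → Subgroup X}

/-- every element of `F m` is a product of elements of the `K i ⊓ F m`, uniquely. -/
structure Fact (F : ℕ → Subgroup X) {r : ℕ} (K : Fin r → Subgroup X) : Prop where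
  ex : ∀ m, ∀ g ∈ F m, ∃ u : Fin r → X, (∀ i, u i ∈ K i) ∧ (∀ i, u i ∈ F m) ∧ op u = g
  uniq : ∀ u v : Fin r → X, (∀ i, u i ∈ K i) → (∀ i, v i ∈ K i) → op u = op v → u = v

omit [Finite X] in
lemma Fact.card_eq {r : ℕ} {K : Fin r → Subgroup X} (h : Fact F K) (m : ℕ) :
    Nat.card (F m) = ∏ i, Nat.card (K i ⊓ F m : Subgroup X) := by
  rw [← Nat.card_pi]
  symm
  apply Nat.card_congr
  refine Equiv.ofBijective (fun u : (i : Fin r) → (K i ⊓ F m : Subgroup X) =>
    (⟨op fun i => (u i : X), op_mem fun i => (u i).2.2⟩ : F m)) ⟨?_, ?_⟩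
  · intro u v huv
    have h1 := h.uniq (fun i => (u i : X)) (fun i => (v i : X)) (fun i => (u i).2.1)
      (fun i => (v i).2.1) (congrArg Subtype.val huv)
    funext i
    exact Subtype.ext (congrFun h1 i)
  · rintro ⟨g, hg⟩
    obtain ⟨u, h1, h2, h3⟩ := h.ex m g hg
    exact ⟨fun i => ⟨u i, h1 i, h2 i⟩, Subtype.ext h3⟩

omit [Finite X] in
lemma Fact.card_hk {r : ℕ} {K : Fin r → Subgroup X} (h : Fact F K) (ws : List ℕ) : ∀ m : ℕ,
    Nat.card {c : Q ws.length → X // hk F m ws c} =
      ∏ i, Nat.card {c : Q ws.length → X // hk (fun m => K i ⊓ F m) m ws c} := by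
  induction ws with
  | nil =>
    intro m
    rw [card_hk_nil, h.card_eq]
    exact Finset.prod_congr rfl fun i _ => (card_hk_nil (fun m => K i ⊓ F m) m).symm
  | cons w ws ih =>
    intro m
    rw [card_hk_cons, ih m, ih (m + w), ← Finset.prod_mul_distrib]
    exact Finset.prod_congr rfl fun i _ => (card_hk_cons (fun m => K i ⊓ F m) m w ws).symm

/-- **Coordinates of polynomial cubes are polynomial cubes.** -/
theorem Fact.coord (hF : NSer F) {r : ℕ} {K : Fin r → Subgroup X} (h : Fact F K) {ws : List ℕ} {m : ℕ}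
    {c : Q ws.length → X} (hc : hk F m ws c) :
    ∃ u : Fin r → Q ws.length → X, (∀ i, hk (fun m => K i ⊓ F m) m ws (u i)) ∧
      ∀ e, op (fun i => u i e) = c e := by
  -- the product map
  let f : ((i : Fin r) → {c : Q ws.length → X // hk (fun m => K i ⊓ F m) m ws c}) →
      {c : Q ws.length → X // hk F m ws c} := fun u =>
    ⟨op fun i => (u i).1, by
      have : op (fun i => (u i).1) ∈ HK hF m ws :=
        op_mem fun i => hk_mono (fun m => inf_le_right) (u i).2
      exact this⟩
  have hanti : ∀ i, Antitone fun m => K i ⊓ F m := fun i a b hab => inf_le_inf_left _ (hF.anti hab)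
  have hinj : Function.Injective f := by
    intro u v huv
    have h1 : op (fun i => (u i).1) = op (fun i => (v i).1) := congrArg Subtype.val huv
    funext i
    apply Subtype.ext
    funext e
    have h2 := congrFun h1 e
    rw [op_apply, op_apply] at h2
    have h3 := h.uniq (fun i => (u i).1 e) (fun i => (v i).1 e)
      (fun i => (hk_val (hanti i) (u i).2 e).1) (fun i => (hk_val (hanti i) (v i).2 e).1) h2
    exact congrFun h3 i
  have hcard : Nat.card ((i : Fin r) → {c : Q ws.length → X // hk (fun m => K i ⊓ F m) m ws c}) =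
      Nat.card {c : Q ws.length → X // hk F m ws c} := by
    rw [Nat.card_pi, h.card_hk]
  have hsurj : Function.Surjective f := by
    have := (Nat.bijective_iff_injective_and_card f).2 ⟨hinj, hcard⟩
    exact this.2
  obtain ⟨u, hu⟩ := hsurj ⟨c, hc⟩
  refine ⟨fun i => (u i).1, fun i => (u i).2, fun e => ?_⟩
  have h4 : op (fun i => (u i).1) = c := congrArg Subtype.val hu
  rw [← op_apply, h4]

/-- the same for given coordinate functions. -/
theorem Fact.coord' (hF : NSer F) {r : ℕ} {K : Fin r → Subgroup X} (h : Fact F K)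
    (κ : Fin r → X → X) (hκ : ∀ i, ∀ g ∈ F 0, κ i g ∈ K i) (hop : ∀ g ∈ F 0, op (fun i => κ i g) = g)
    {ws : List ℕ} {m : ℕ} {c : Q ws.length → X} (hc : hk F m ws c) (i : Fin r) :
    hk (fun m => K i ⊓ F m) m ws (fun e => κ i (c e)) := by
  obtain ⟨u, hu, hue⟩ := h.coord hF hc
  have hanti : ∀ i, Antitone fun m => K i ⊓ F m := fun i a b hab => inf_le_inf_left _ (hF.anti hab)
  have h1 : (fun e => κ i (c e)) = u i := by
    funext e
    have hce : c e ∈ F 0 := hF.anti (Nat.zero_le m) (hk_val hF.anti hc e)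
    have h2 := h.uniq (fun i => κ i (c e)) (fun i => u i e) (fun i => hκ i _ hce)
      (fun i => (hk_val (hanti i) (hu i) e).1) (by rw [hop _ hce, hue])
    exact congrFun h2 i
  rw [h1]
  exact hu i

end coord

section words

variable {X : Type*} [Group X] {F : ℕ → Subgroup X}

/-- words are polynomial cubes: `x_i` in `F (w_i)`. -/
theorem hk_wd (hF : NSer F) (l : List (X × ℕ)) (hl : ∀ q ∈ l, q.1 ∈ F q.2) : ∀ {y : X}, y ∈ F 0 →
    hk F 0 (l.map Prod.snd) (wd y l) := by
  induction l with
  | nil => intro y hy; exact hy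
  | cons q l ih =>
    intro y hy
    have hl' : ∀ q ∈ l, q.1 ∈ F q.2 := fun q' hq' => hl q' (List.mem_cons_of_mem _ hq')
    refine ⟨ih hl' hy, ?_⟩
    have h1 := ih hl' (F 0).one_mem
    have h2 : hk F (0 + q.2) (l.map Prod.snd) (fun _ => q.1) := by
      apply hk_const
      rw [zero_add]
      exact hl q (List.mem_cons_self)
    have h3 := (clo hF _).conj' hF.anti h1 h2
    have h4 : (fc false (wd y (q :: l)))⁻¹ * fc true (wd y (q :: l)) =
        (wd 1 l)⁻¹ * (fun _ => q.1) * wd 1 l := by
      rw [fc_false_wd, fc_true_wd]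
      have e1 : wd y l = (fun _ => y) * wd 1 l := by rw [← wd_mul, mul_one]
      have e2 : wd (y * q.1) l = (fun _ => y * q.1) * wd 1 l := by rw [← wd_mul, mul_one]
      rw [e1, e2]
      funext e
      simp only [Pi.mul_apply, Pi.inv_apply]
      group
    exact h4 ▸ h3

end words

section alt

variable {T : Type*} [CommGroup T]

/-- alternating product over the cube. -/
def alt : (n : ℕ) → (Q n → T) → T
  | 0, c => c ()
  | n + 1, c => alt n (fc true c) / alt n (fc false c)

lemma alt_mul (n : ℕ) (c d : Q n → T) : alt n (c * d) = alt n c * alt n d := by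
  induction n with
  | zero => rfl
  | succ n ih =>
    change alt n (fc true c * fc true d) / alt n (fc false c * fc false d) = _
    rw [ih, ih]
    change _ = (alt n (fc true c) / alt n (fc false c)) * (alt n (fc true d) / alt n (fc false d))
    rw [div_mul_div_comm]

lemma alt_inv (n : ℕ) (c : Q n → T) : alt n c⁻¹ = (alt n c)⁻¹ := by
  induction n with
  | zero => rfl
  | succ n ih =>
    change alt n (fc true c)⁻¹ / alt n (fc false c)⁻¹ = (alt n (fc true c) / alt n (fc false c))⁻¹
    rw [ih, ih, inv_div, div_eq_mul_inv, div_eq_mul_inv, inv_inv, mul_comm]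

/-- the alternating product of a polynomial cube. -/
theorem hk_alt {F : ℕ → Subgroup T} {ws : List ℕ} : ∀ {m : ℕ} {c : Q ws.length → T},
    hk F m ws c → alt ws.length c ∈ F (m + ws.sum) := by
  induction ws with
  | nil => intro m c hc; rw [List.sum_nil, add_zero]; exact hc
  | cons w ws ih =>
    intro m c hc
    have h1 := ih hc.2
    rw [alt_mul, alt_inv] at h1
    rw [List.sum_cons, ← add_assoc]
    change alt ws.length (fc true c) / alt ws.length (fc false c) ∈ _
    rw [div_eq_mul_inv, mul_comm]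
    exact h1

end alt

end Pool.Agent.Helper10.RK
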