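import Mathlib
import Pool.Agent.Helper10.RK.Basis
import Pool.Agent.Helper10.RK.Cube
import Pool.Agent.Helper60.RK.Power

/-! Project RK (MP_aa96c4_al), Lemma P, part 1: power structure modulo a central subgroup `Z`. -/

namespace Pool.Agent.Helper10.RK

open RKP
open Pool.Agent.Helper46.RK (NSer)
open Pool.Agent.Helper60.RK (Emb)
open scoped commutatorElement

section base

variable {G : Type*} [Group G] {p : ℕ} {P Z : Subgroup G} {j N : ℕ}

lemma cm_mem {u v : G} (hu : u ∈ P) (hv : v ∈ P) : ⁅u, v⁆ ∈ P := by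
  rw [commutatorElement_def]
  exact P.mul_mem (P.mul_mem (P.mul_mem hu hv) (P.inv_mem hu)) (P.inv_mem hv)

lemma emb (S : Star p P j) : Emb p P j := ⟨S.normal, S.two, S.star⟩

/-- the hypotheses of Lemma P. -/
structure PZ (p : ℕ) {G : Type*} [Group G] (P Z : Subgroup G) (j N : ℕ) : Prop where
  S : Star p P j
  pg : IsPGroup p G
  zn : Z.Normal
  le : Z ≤ P
  cen : ∀ z ∈ Z, ∀ u ∈ P, Commute z u
  bnd : pw (p ^ N) P ≤ Z

variable [Finite G] [hp : _root_.Fact p.Prime]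

/-- (P1) -/
lemma PZ.P1 (h : PZ p P Z j N) {a : ℕ} {v u : G} (hv : v ∈ P) (hu : u ∈ P) (hz : v ^ p ^ a ∈ Z) :
    ⁅v, u⁆ ^ p ^ a = 1 := by
  have h1 : v ^ p ^ a = (u * v * u⁻¹) ^ p ^ a := by
    rw [conj_pow, ← (h.cen _ hz u hu).eq, mul_inv_cancel_right]
  have h2 := (emb h.S).pow_eq_pow h.pg hv (h.S.normal.conj_mem v hv u) a h1
  rw [commutatorElement_def]
  convert h2 using 2
  group

/-- the elements of `P` whose `p ^ a`-th power is in `Z`. -/
def PZ.A (h : PZ p P Z j N) (a : ℕ) : Subgroup G :=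
  have := h.zn
  ((h.S.quot Z).Om (h.pg.to_quotient Z) a).comap (QuotientGroup.mk' Z) ⊓ P

lemma PZ.mem_A (h : PZ p P Z j N) {a : ℕ} {v : G} : v ∈ h.A a ↔ v ∈ P ∧ v ^ p ^ a ∈ Z := by
  have := h.zn
  constructor
  · rintro ⟨⟨h1, h2⟩, h3⟩
    refine ⟨h3, ?_⟩
    rw [← map_pow] at h2
    exact (QuotientGroup.eq_one_iff _).1 h2
  · rintro ⟨h1, h2⟩
    refine ⟨⟨⟨v, h1, rfl⟩, ?_⟩, h1⟩
    rw [← map_pow]
    exact (QuotientGroup.eq_one_iff _).2 h2

lemma PZ.A_mono (h : PZ p P Z j N) {a b : ℕ} (hab : a ≤ b) {v : G} (hv : v ∈ h.A a) : v ∈ h.A b := by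
  rw [h.mem_A] at hv ⊢
  refine ⟨hv.1, ?_⟩
  obtain ⟨c, rfl⟩ := Nat.exists_eq_add_of_le hab
  rw [pow_add, pow_mul]
  exact Z.pow_mem hv.2 _

lemma PZ.A_conj (h : PZ p P Z j N) {a : ℕ} {v : G} (hv : v ∈ h.A a) (g : G) : g * v * g⁻¹ ∈ h.A a := by
  rw [h.mem_A] at hv ⊢
  refine ⟨h.S.normal.conj_mem _ hv.1 g, ?_⟩
  rw [conj_pow]
  exact h.zn.conj_mem _ hv.2 g

lemma PZ.Z_le_A (h : PZ p P Z j N) {a : ℕ} {v : G} (hv : v ∈ Z) : v ∈ h.A a := by
  rw [h.mem_A]
  exact ⟨h.le hv, Z.pow_mem hv _⟩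

/-- product formula for powers on `A a`. -/
lemma PZ.mul_pow (h : PZ p P Z j N) (a : ℕ) : ∀ {v w : G}, v ∈ h.A a → w ∈ h.A a →
    (v * w) ^ p ^ (a + 1) = v ^ p ^ (a + 1) * w ^ p ^ (a + 1) := by
  induction a with
  | zero =>
    intro v w hv hw
    rw [h.mem_A] at hv hw
    have h1 : v ∈ Z := by simpa using hv.2
    exact (h.cen v h1 w hw.1).mul_pow _
  | succ a ih =>
    intro v w hv hw
    have hv' := h.mem_A.1 hv
    have hw' := h.mem_A.1 hw
    have hn : (h.S.Om h.pg (a + 1)).Normal := h.S.Om_normal h.pg (a + 1)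
    let π := QuotientGroup.mk' (h.S.Om h.pg (a + 1))
    have hker : ∀ g : G, π g = 1 ↔ g ∈ h.S.Om h.pg (a + 1) := fun g => QuotientGroup.eq_one_iff g
    have hcm : Commute (π v) (π w) := by
      change _ * _ = _ * _
      rw [← commutatorElement_eq_one_iff_mul_comm, ← map_commutatorElement, hker]
      exact ⟨cm_mem hv'.1 hw'.1, h.P1 hv'.1 hw'.1 hv'.2⟩
    set ω := (v * w) ^ p * (v ^ p * w ^ p)⁻¹ with hω
    have hω1 : ω ∈ h.S.Om h.pg (a + 1) := by
      rw [← hker, hω, map_mul, map_inv, mul_inv_eq_one, map_pow, map_mul, map_mul, map_pow, map_pow]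
      exact hcm.mul_pow p
    have e1 : (v * w) ^ p = ω * (v ^ p * w ^ p) := by rw [hω]; group
    have hvp : v ^ p ∈ h.A a := by
      rw [h.mem_A]
      refine ⟨P.pow_mem hv'.1 _, ?_⟩
      rw [← pow_mul, ← pow_succ']
      exact hv'.2
    have hwp : w ^ p ∈ h.A a := by
      rw [h.mem_A]
      refine ⟨P.pow_mem hw'.1 _, ?_⟩
      rw [← pow_mul, ← pow_succ']
      exact hw'.2
    have e2 : ∀ g : G, g ^ p ^ (a + 1 + 1) = (g ^ p) ^ p ^ (a + 1) := fun g => by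
      rw [← pow_mul, ← pow_succ']
    rw [e2, e2, e2, e1, (emb h.S).mul_pow_of_Om h.pg hω1.1
      (P.mul_mem (P.pow_mem hv'.1 _) (P.pow_mem hw'.1 _)) (a + 1) hω1.2]
    exact ih hvp hwp

/-- commutators of powers. -/
lemma comm_pw_pow (S : Star p P j) (hG : IsPGroup p G) {a : ℕ} {u w : G} (hu : u ∈ pw (p ^ a) P)
    (hw : w ∈ P) (b : ℕ) : ⁅u, w ^ p ^ b⁆ ∈ pw (p ^ (a + b + j)) P := by
  induction b with
  | zero =>
    rw [pow_zero, pow_one, add_zero]
    exact (emb S).comm_Z hG S.normal le_rfl a (Subgroup.commutator_mem_commutator hu hw)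
  | succ b ih =>
    set y := w ^ p ^ b with hy
    have hyP : y ∈ P := P.pow_mem hw _
    set c := ⁅u, y⁆ with hc
    have hn : (pw (p ^ (a + (b + 1) + j)) P).Normal := pw_normal S.normal
    let π := QuotientGroup.mk' (pw (p ^ (a + (b + 1) + j)) P)
    have hker : ∀ g : G, π g = 1 ↔ g ∈ pw (p ^ (a + (b + 1) + j)) P := fun g =>
      QuotientGroup.eq_one_iff g
    have hj := S.two
    have hcm : Commute (π c) (π y) := by
      change _ * _ = _ * _
      rw [← commutatorElement_eq_one_iff_mul_comm, ← map_commutatorElement, hker]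
      have h1 := (emb S).comm_Z hG S.normal le_rfl (a + b + j)
        (Subgroup.commutator_mem_commutator ih hyP)
      exact pw_anti (by omega) h1
    have hcp : π c ^ p = 1 := by
      rw [← map_pow, hker]
      have h1 := pw_pw S hG _ (mem_pw (m := p) ih)
      rwa [show a + b + j + 1 = a + (b + 1) + j by omega] at h1
    have e1 : w ^ p ^ (b + 1) = y ^ p := by rw [hy, ← pow_mul, ← pow_succ]
    clear_value y
    have e2 : u * y * u⁻¹ = c * y := by rw [hc, commutatorElement_def]; group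
    rw [← hker, e1, commutatorElement_def]
    have e3 : u * y ^ p * u⁻¹ = (u * y * u⁻¹) ^ p := by rw [conj_pow]
    rw [e3, e2, map_mul, map_pow, map_mul, hcm.mul_pow, hcp, one_mul, map_inv, map_pow,
      mul_inv_cancel]

/-- (P2) -/
lemma comm_pw_pw (S : Star p P j) (hG : IsPGroup p G) (a b : ℕ) :
    ⁅pw (p ^ a) P, pw (p ^ b) P⁆ ≤ pw (p ^ (a + b + j)) P := by
  rw [Subgroup.commutator_le]
  intro u hu v hv
  obtain ⟨w, hw, rfl⟩ := exists_root S hG b hv
  exact comm_pw_pow S hG hu hw b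

/-- (P2), commuting. -/
lemma PZ.P2 (h : PZ p P Z j N) {s t : ℕ} (hst : N ≤ s + t) {u v : G} (hu : u ∈ pw (p ^ s) P)
    (hv : v ∈ pw (p ^ t) P) : Commute u v := by
  obtain ⟨r, hr, rfl⟩ := exists_root h.S h.pg s hu
  obtain ⟨x, hx, rfl⟩ := exists_root h.S h.pg t hv
  have h1 : (r ^ p ^ s) ^ p ^ t ∈ Z := by
    rw [← pow_mul, ← pow_add]
    exact h.bnd (pw_anti hst (mem_pw hr))
  have hrP : r ^ p ^ s ∈ P := P.pow_mem hr _
  have h2 := h.P1 hrP hx h1
  have e1 : r ^ p ^ s * x * (r ^ p ^ s)⁻¹ = ⁅r ^ p ^ s, x⁆ * x := by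
    rw [commutatorElement_def]; group
  have h3 : (r ^ p ^ s * x * (r ^ p ^ s)⁻¹) ^ p ^ t = x ^ p ^ t := by
    rw [e1]
    refine (emb h.S).mul_pow_of_Om h.pg ?_ hx t h2
    exact cm_mem hrP hx
  rw [conj_pow, mul_inv_eq_iff_eq_mul] at h3
  exact h3

omit [Finite G] hp in
/-- commuting elements modulo central ones. -/
lemma PZ.comm_sup (h : PZ p P Z j N) {A B : Subgroup G} (hAP : A ≤ P)
    (hBP : B ≤ P) {K : Subgroup G} (hAB : ⁅A, B⁆ ≤ K) : ⁅A ⊔ Z, B ⊔ Z⁆ ≤ K := by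
  have := h.zn
  rw [Subgroup.commutator_le]
  intro u hu v hv
  obtain ⟨a, ha, z, hz, rfl⟩ := Subgroup.mem_sup_of_normal_right.1 hu
  obtain ⟨b, hb, z', hz', rfl⟩ := Subgroup.mem_sup_of_normal_right.1 hv
  have c1 := (h.cen z hz b (hBP hb)).eq
  have c2 := (h.cen z hz z' (h.le hz')).eq
  have c3 := (h.cen z' hz' a (hAP ha)).eq
  have c4 := (h.cen z' hz' b (hBP hb)).eq
  have e1 : ⁅a * z, b * z'⁆ = ⁅a, b⁆ := by
    rw [commutatorElement_def, commutatorElement_def, mul_inv_eq_iff_eq_mul, mul_inv_eq_iff_eq_mul]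
    calc a * z * (b * z') = a * (z * b) * z' := by group
      _ = a * b * (z * z') := by rw [c1]; group
      _ = a * b * (z' * z) := by rw [c2]
      _ = (a * b * z') * z := by group
      _ = a * b * a⁻¹ * (a * z') * z := by group
      _ = a * b * a⁻¹ * (z' * a) * z := by rw [c3]
      _ = a * b * a⁻¹ * b⁻¹ * (b * z') * (a * z) := by group
  rw [e1]
  exact hAB (Subgroup.commutator_mem_commutator ha hb)

end base

end Pool.Agent.Helper10.RK
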