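import Mathlib
import Pool.Agent.Helper10.RK.LemmaP1

/-! Project RK (MP_aa96c4_al), Lemma P, part 2: exact letters modulo `Z`, the function `f`, and the
formula (D) for `p ^ (a + 1) (f (u g) - f u)`. -/

namespace Pool.Agent.Helper10.RK

open RKP
open Pool.Agent.Helper46.RK (NSer)
open Pool.Agent.Helper60.RK (Emb)
open scoped commutatorElement

section op

variable {G : Type*} [Group G] {d : ℕ}

lemma op_mul {u v : Fin d → G} (h : ∀ i k, Commute (v i) (u k)) :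
    op (fun i => u i * v i) = op u * op v := by
  induction d with
  | zero => simp [op]
  | succ d ih =>
    rw [op_succ, op_succ, op_succ, ih fun i k => h i.succ k.succ]
    have hc : Commute (v 0) (op fun i : Fin d => u i.succ) := by
      have h1 : (op fun i : Fin d => u i.succ) ∈ Subgroup.centralizer {v 0} := by
        apply op_mem
        intro i
        rw [Subgroup.mem_centralizer_singleton_iff]
        exact (h 0 i.succ).symm
      rw [Subgroup.mem_centralizer_singleton_iff] at h1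
      exact h1.symm
    calc u 0 * v 0 * ((op fun i : Fin d => u i.succ) * op fun i : Fin d => v i.succ)
        = u 0 * (v 0 * op fun i : Fin d => u i.succ) * op fun i : Fin d => v i.succ := by
          simp only [mul_assoc]
      _ = _ := by rw [hc.eq]; simp only [mul_assoc]

lemma op_map {H : Type*} [Group H] (f : G →* H) (u : Fin d → G) : f (op u) = op fun i => f (u i) := by
  induction d with
  | zero => simp [op]
  | succ d ih => rw [op_succ, op_succ, map_mul, ih]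

lemma cp_eq_op (x : Fin d → G) (a : Fin d → ℕ) : cp x a = op fun i => x i ^ (a i : ℤ) := by
  rw [cp_def, op]
  congr 1
  congr 1
  funext i
  rw [zpow_natCast]

end op

section EB

/-- exact basis. -/
structure EB (p : ℕ) {H : Type*} [Group H] (P : Subgroup H) {d : ℕ} (x : Fin d → H)
    (l : Fin d → ℕ) : Prop where
  mem : ∀ i, x i ∈ P
  ord : ∀ i, x i ^ (p ^ l i) = 1
  ex : ∀ (e : ℕ) (g : H), g ∈ pw (p ^ e) P → ∃ a : Fin d → ℕ, (∀ i, a i < p ^ l i) ∧
    (∀ i, p ^ e ∣ a i) ∧ cp x a = g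
  uniq : ∀ a b : Fin d → ℕ, (∀ i, a i < p ^ l i) → (∀ i, b i < p ^ l i) → cp x a = cp x b → a = b

variable {H : Type*} [Group H] [Finite H] {p : ℕ} [hp : _root_.Fact p.Prime] {P : Subgroup H}
  {j d : ℕ} {x : Fin d → H} {l : Fin d → ℕ}

omit [Finite H] hp in
lemma pw_zero (P : Subgroup H) : pw (p ^ 0) P = P := by
  apply le_antisymm (pw_self _ _)
  intro g hg
  have := mem_pw (m := p ^ 0) hg
  simpa using this

/-- **adapted**: exponents modulo `Omega_t`. -/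
lemma EB.adapt (h : EB p P x l) (S : Star p P j) (hG : IsPGroup p H) (t : ℕ) {a b : Fin d → ℕ}
    (hab : ((cp x a)⁻¹ * cp x b) ^ p ^ t = 1) (i : Fin d) :
    ((p : ℤ) ^ l i) ∣ p ^ t * ((b i : ℤ) - a i) := by
  classical
  have hn : (S.Om hG t).Normal := S.Om_normal hG t
  let π := QuotientGroup.mk' (S.Om hG t)
  have hker : ∀ g : H, π g = 1 ↔ g ∈ S.Om hG t := fun g => QuotientGroup.eq_one_iff g
  have hpos : ∀ e, 0 < p ^ e := fun e => pow_pos hp.out.pos e
  -- order of the letters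
  have hord : ∀ i, π (x i) ^ p ^ (l i - t) = 1 := by
    intro i
    rw [← map_pow, hker]
    refine ⟨P.pow_mem (h.mem i) _, ?_⟩
    obtain ⟨c, hc⟩ : ∃ c, l i - t + t = l i + c := ⟨l i - t + t - l i, by omega⟩
    rw [← pow_mul, ← pow_add, hc, pow_add, pow_mul, h.ord i, one_pow]
  have hred : ∀ a : Fin d → ℕ, cp (fun i => π (x i)) a =
      cp (fun i => π (x i)) (fun i => a i % p ^ (l i - t)) := by
    intro a
    apply cp_congr
    intro i
    conv_lhs => rw [← Nat.mod_add_div (a i) (p ^ (l i - t)), pow_add, pow_mul, hord i, one_pow, mul_one]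
  -- the map
  let B : ((i : Fin d) → Fin (p ^ (l i - t))) → (P.map π) := fun a =>
    ⟨cp (fun i => π (x i)) (fun i => a i), cp_mem fun i =>
      Subgroup.pow_mem _ (Subgroup.mem_map_of_mem π (h.mem i)) _⟩
  have hsurj : Function.Surjective B := by
    rintro ⟨_, g, hg, rfl⟩
    obtain ⟨a, -, -, rfl⟩ := h.ex 0 g (by rw [pw_zero]; exact hg)
    refine ⟨fun i => ⟨a i % p ^ (l i - t), Nat.mod_lt _ (hpos _)⟩, ?_⟩
    apply Subtype.ext
    change cp (fun i => π (x i)) (fun i => a i % p ^ (l i - t)) = π (cp x a)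
    rw [← hred, cp_map]
  have hcard1 : Nat.card ((i : Fin d) → Fin (p ^ (l i - t))) ≤ Nat.card (pw (p ^ t) P) := by
    let B1 : ((i : Fin d) → Fin (p ^ (l i - t))) → pw (p ^ t) P := fun a =>
      ⟨cp x (fun i => p ^ t * a i), cp_mem fun i => by
        rw [pow_mul]; exact Subgroup.pow_mem _ (mem_pw (h.mem i)) _⟩
    apply Nat.card_le_card_of_injective B1
    intro a b hab
    have hlt : ∀ a : (i : Fin d) → Fin (p ^ (l i - t)), ∀ i, p ^ t * (a i : ℕ) < p ^ l i := by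
      intro a i
      have h1 := (a i).2
      rcases le_total t (l i) with hle | hle
      · calc p ^ t * (a i : ℕ) < p ^ t * p ^ (l i - t) := Nat.mul_lt_mul_of_pos_left h1 (hpos t)
          _ = p ^ l i := by rw [← pow_add]; congr 1; omega
      · have h2 : (a i : ℕ) = 0 := by
          have h3 : p ^ (l i - t) = 1 := by
            rw [show l i - t = 0 by omega, pow_zero]
          omega
        rw [h2, mul_zero]
        exact hpos _
    have h2 := h.uniq _ _ (hlt a) (hlt b) (congrArg Subtype.val hab)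
    funext i
    apply Fin.ext
    exact Nat.eq_of_mul_eq_mul_left (hpos t) (congrFun h2 i)
  have hcard2 : Nat.card (pw (p ^ t) P) ≤ Nat.card (P.map π) := by
    choose r hr1 hr2 using fun g : pw (p ^ t) P => exists_root S hG t g.2
    apply Nat.card_le_card_of_injective (fun g => (⟨π (r g), r g, hr1 g, rfl⟩ : P.map π))
    intro g g' hgg
    have h1 : π (r g) = π (r g') := congrArg Subtype.val hgg
    apply Subtype.ext
    rw [← hr2 g, ← hr2 g']
    have h2 : r g * (r g')⁻¹ ∈ S.Om hG t := by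
      rw [← hker, map_mul, map_inv, h1, mul_inv_cancel]
    exact ((emb S).pow_eq_pow_iff hG (hr1 g) (hr1 g') t).2 h2.2
  have hbij := hsurj.bijective_of_nat_card_le (hcard1.trans hcard2)
  -- conclusion
  have h1 : π (cp x a) = π (cp x b) := by
    rw [← inv_mul_eq_one, ← map_inv, ← map_mul, hker]
    exact ⟨P.mul_mem (P.inv_mem (cp_mem fun i => P.pow_mem (h.mem i) _))
      (cp_mem fun i => P.pow_mem (h.mem i) _), hab⟩
  rw [cp_map, cp_map, hred a, hred b] at h1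
  have h2 := @hbij.1 (fun i => ⟨a i % p ^ (l i - t), Nat.mod_lt _ (hpos _)⟩)
    (fun i => ⟨b i % p ^ (l i - t), Nat.mod_lt _ (hpos _)⟩) (Subtype.ext h1)
  have h3 : a i % p ^ (l i - t) = b i % p ^ (l i - t) := congrArg Fin.val (congrFun h2 i)
  have h4 : ((p ^ (l i - t) : ℕ) : ℤ) ∣ (b i : ℤ) - a i := (Nat.modEq_iff_dvd).1 h3
  push_cast at h4
  have h5 : ((p : ℤ) ^ l i) ∣ p ^ t * p ^ (l i - t) := by
    rw [← pow_add]
    exact pow_dvd_pow _ (by omega)
  exact h5.trans (mul_dvd_mul_left _ h4)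

end EB

section letters

/-- exact letters modulo `Z`. -/
structure Lt (p : ℕ) {G : Type*} [Group G] (P Z : Subgroup G) [Z.Normal] {d : ℕ} (x : Fin d → G)
    (l : Fin d → ℕ) : Prop where
  mem : ∀ i, x i ∈ P
  eb : EB p (P.map (QuotientGroup.mk' Z)) (fun i => QuotientGroup.mk' Z (x i)) l

variable {G : Type*} [Group G] {p : ℕ} {P Z : Subgroup G} [Z.Normal] {j N d : ℕ} {x : Fin d → G}
  {l : Fin d → ℕ}

lemma mkZ (g : G) : QuotientGroup.mk' Z g = 1 ↔ g ∈ Z := QuotientGroup.eq_one_iff g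

lemma exists_lt [Finite G] [hp : _root_.Fact p.Prime] (h : PZ p P Z j N) :
    ∃ (d : ℕ) (x : Fin d → G) (l : Fin d → ℕ), Lt p P Z x l := by
  obtain ⟨d, y, l, h1, h2, h3, h4⟩ := exact_basis (h.S.quot Z) (h.pg.to_quotient Z)
  choose x hxP hxy using h1
  have hxy' : (fun i => QuotientGroup.mk' Z (x i)) = y := funext hxy
  exact ⟨d, x, l, hxP, by rw [hxy']; exact ⟨fun i => ⟨x i, hxP i, hxy i⟩, h2, h3, h4⟩⟩

lemma Lt.ordZ (L : Lt p P Z x l) (i : Fin d) : x i ^ p ^ l i ∈ Z := by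
  rw [← mkZ, map_pow]; exact L.eb.ord i

lemma Lt.exi (L : Lt p P Z x l) {g : G} (hg : g ∈ P) :
    ∃ a : Fin d → ℕ, (∀ i, a i < p ^ l i) ∧ (cp x a)⁻¹ * g ∈ Z := by
  obtain ⟨a, h1, -, h3⟩ := L.eb.ex 0 (QuotientGroup.mk' Z g) (by rw [pw_zero]; exact ⟨g, hg, rfl⟩)
  refine ⟨a, h1, ?_⟩
  rw [← mkZ, map_mul, map_inv, cp_map, h3, inv_mul_cancel]

lemma Lt.uniqZ (L : Lt p P Z x l) {a b : Fin d → ℕ} (ha : ∀ i, a i < p ^ l i)
    (hb : ∀ i, b i < p ^ l i) {z z' : G} (hz : z ∈ Z) (hz' : z' ∈ Z)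
    (hab : cp x a * z = cp x b * z') : a = b := by
  apply L.eb.uniq a b ha hb
  have h5 : QuotientGroup.mk' Z (cp x a * z) = QuotientGroup.mk' Z (cp x b * z') := by rw [hab]
  rw [map_mul, map_mul, (mkZ z).2 hz, (mkZ z').2 hz', mul_one, mul_one, cp_map, cp_map] at h5
  exact h5

lemma Lt.adapt [Finite G] [hp : _root_.Fact p.Prime] (L : Lt p P Z x l) (h : PZ p P Z j N) (t : ℕ)
    {a b : Fin d → ℕ} (hab : ((cp x a)⁻¹ * cp x b) ^ p ^ t ∈ Z) (i : Fin d) :
    ((p : ℤ) ^ l i) ∣ p ^ t * ((b i : ℤ) - a i) := by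
  apply L.eb.adapt (h.S.quot Z) (h.pg.to_quotient Z) t
  rw [← cp_map, ← cp_map, ← map_inv, ← map_mul, ← map_pow, mkZ]
  exact hab

/-- the order of a letter modulo `Z`. -/
lemma Lt.zpow_mem [Finite G] [hp : _root_.Fact p.Prime] (L : Lt p P Z x l) {i : Fin d} {n : ℤ}
    (hn : x i ^ n ∈ Z) : ((p : ℤ) ^ l i) ∣ n := by
  have hpos : (0 : ℤ) < (p : ℤ) ^ l i := pow_pos (by exact_mod_cast hp.out.pos) _
  set m : ℕ := (n % (p : ℤ) ^ l i).toNat with hm
  have hm1 : (m : ℤ) = n % (p : ℤ) ^ l i := Int.toNat_of_nonneg (Int.emod_nonneg _ hpos.ne')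
  have hm2 : m < p ^ l i := by
    have h1 := Int.emod_lt_of_pos n hpos
    rw [← hm1] at h1
    exact_mod_cast h1
  have hm3 : x i ^ m ∈ Z := by
    have h1 : n = (m : ℤ) + (p : ℤ) ^ l i * (n / (p : ℤ) ^ l i) := by
      rw [hm1]; exact (Int.emod_add_mul_ediv n _).symm
    rw [h1, zpow_add, zpow_natCast] at hn
    have h2 : x i ^ ((p : ℤ) ^ l i * (n / (p : ℤ) ^ l i)) ∈ Z := by
      rw [zpow_mul]
      apply Z.zpow_mem
      have h3 := L.ordZ i
      rw [← zpow_natCast] at h3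
      push_cast at h3
      exact h3
    exact (Z.mul_mem_cancel_right h2).1 hn
  have h4 : (Pi.single i m : Fin d → ℕ) = fun _ => 0 := by
    apply L.uniqZ (z := 1) (z' := x i ^ m) ?_ (fun k => pow_pos hp.out.pos _) Z.one_mem hm3
    · rw [cp_single, cp_zero, mul_one, one_mul]
    · intro k
      by_cases hk : k = i
      · subst hk; rw [Pi.single_eq_same]; exact hm2
      · rw [Pi.single_eq_of_ne hk]; exact pow_pos hp.out.pos _
  have h5 := congrFun h4 i
  rw [Pi.single_eq_same] at h5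
  rw [h5] at hm1
  exact Int.dvd_of_emod_eq_zero (by rw [← hm1]; rfl)

end letters

section chi

variable {G T : Type*} [Group G] [AddCommGroup T] {Z : Subgroup G}

/-- `χ` is additive on `Z`. -/
structure Chi (Z : Subgroup G) (χ : G → T) : Prop where
  add : ∀ z ∈ Z, ∀ z' ∈ Z, χ (z * z') = χ z + χ z'

variable {χ : G → T}

/-- as a homomorphism. -/
def Chi.hom (h : Chi Z χ) : Z →* Multiplicative T :=
  MonoidHom.mk' (fun z => Multiplicative.ofAdd (χ z)) fun z z' => h.add z z.2 z' z'.2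

lemma Chi.one (h : Chi Z χ) : χ 1 = 0 := h.hom.map_one

lemma Chi.inv (h : Chi Z χ) {z : G} (hz : z ∈ Z) : χ z⁻¹ = - χ z := h.hom.map_inv ⟨z, hz⟩

lemma Chi.zpow (h : Chi Z χ) {z : G} (hz : z ∈ Z) (n : ℤ) : χ (z ^ n) = n • χ z :=
  h.hom.map_zpow ⟨z, hz⟩ n

lemma Chi.pow (h : Chi Z χ) {z : G} (hz : z ∈ Z) (n : ℕ) : χ (z ^ n) = n • χ z :=
  h.hom.map_pow ⟨z, hz⟩ n

lemma Chi.op (h : Chi Z χ) {d : ℕ} {u : Fin d → G} (hu : ∀ i, u i ∈ Z) :
    χ (op u) = ∑ i, χ (u i) := by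
  induction d with
  | zero => simp [RK.op, h.one]
  | succ d ih =>
    rw [op_succ, h.add _ (hu 0) _ (op_mem fun i => hu i.succ), ih fun i => hu i.succ,
      Fin.sum_univ_succ]

end chi

section f

variable {G T : Type*} [Group G] [Finite G] [AddCommGroup T] {p : ℕ} [hp : _root_.Fact p.Prime]
  {P Z : Subgroup G} [Z.Normal] {j N d : ℕ} {x : Fin d → G} {l : Fin d → ℕ} {χ : G → T}
  {ρ : Fin d → T}

omit [Finite G] hp in
/-- the value of a letter whose power is in `Z`. -/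
lemma chi_letter (L : Lt p P Z x l) (hχ : Chi Z χ) (hρ : ∀ i, p ^ l i • ρ i = χ (x i ^ p ^ l i))
    {i : Fin d} {n : ℤ} (hn : ((p : ℤ) ^ l i) ∣ n) : x i ^ n ∈ Z ∧ χ (x i ^ n) = n • ρ i := by
  obtain ⟨m, rfl⟩ := hn
  have h1 : x i ^ ((p : ℤ) ^ l i * m) = (x i ^ p ^ l i) ^ m := by
    rw [zpow_mul]
    congr 1
    rw [← zpow_natCast]
    push_cast
    rfl
  rw [h1]
  refine ⟨Z.zpow_mem (L.ordZ i) m, ?_⟩
  rw [hχ.zpow (L.ordZ i), ← hρ i, mul_comm, mul_smul]
  congr 1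
  rw [← natCast_zsmul]
  push_cast
  rfl

omit [Finite G] in
lemma exists_f (h : PZ p P Z j N) (L : Lt p P Z x l) (hχ : Chi Z χ)
    (hρ : ∀ i, p ^ l i • ρ i = χ (x i ^ p ^ l i)) :
    ∃ f : G → T, ∀ (α : Fin d → ℤ) (z : G), z ∈ Z →
      f (op (fun i => x i ^ α i) * z) = ∑ i, α i • ρ i + χ z := by
  classical
  choose a ha1 ha2 using fun g : P => L.exi g.2
  refine ⟨fun g => if hg : g ∈ P then ∑ i, (a ⟨g, hg⟩ i : ℤ) • ρ i + χ ((cp x (a ⟨g, hg⟩))⁻¹ * g)
    else 0, ?_⟩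
  intro α z hz
  have hgP : op (fun i => x i ^ α i) * z ∈ P :=
    P.mul_mem (op_mem fun i => P.zpow_mem (L.mem i) _) (h.le hz)
  set g := op (fun i => x i ^ α i) * z with hg
  have hpos : ∀ i, (0 : ℤ) < (p : ℤ) ^ l i := fun i => pow_pos (by exact_mod_cast hp.out.pos) _
  -- the remainders
  let r : Fin d → ℕ := fun i => (α i % (p : ℤ) ^ l i).toNat
  have hr1 : ∀ i, (r i : ℤ) = α i % (p : ℤ) ^ l i := fun i =>
    Int.toNat_of_nonneg (Int.emod_nonneg _ (hpos i).ne')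
  have hr2 : ∀ i, r i < p ^ l i := by
    intro i
    have h1 := Int.emod_lt_of_pos (α i) (hpos i)
    rw [← hr1] at h1
    exact_mod_cast h1
  let β : Fin d → ℤ := fun i => (p : ℤ) ^ l i * (α i / (p : ℤ) ^ l i)
  have hβ : ∀ i, α i = r i + β i := fun i => by
    rw [hr1]; exact (Int.emod_add_mul_ediv (α i) _).symm
  have hβZ : ∀ i, x i ^ β i ∈ Z ∧ χ (x i ^ β i) = β i • ρ i := fun i =>
    chi_letter L hχ hρ (dvd_mul_right _ _)
  have hop : op (fun i => x i ^ α i) = cp x r * op (fun i => x i ^ β i) := by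
    rw [cp_eq_op, ← op_mul]
    · congr 1
      funext i
      rw [← zpow_add, ← hβ i]
    · intro i k
      exact h.cen _ (hβZ i).1 _ (P.zpow_mem (L.mem k) _)
  have hζ : op (fun i => x i ^ β i) ∈ Z := op_mem fun i => (hβZ i).1
  have h1 : cp x (a ⟨g, hgP⟩) * ((cp x (a ⟨g, hgP⟩))⁻¹ * g) =
      cp x r * (op (fun i => x i ^ β i) * z) := by
    rw [mul_inv_cancel_left, hg, hop, mul_assoc]
  have h2 : a ⟨g, hgP⟩ = r := L.uniqZ (ha1 _) hr2 (ha2 ⟨g, hgP⟩) (Z.mul_mem hζ hz) h1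
  have h3 : (cp x r)⁻¹ * g = op (fun i => x i ^ β i) * z := by
    rw [hg, hop]; group
  change (if hg : g ∈ P then _ else _) = _
  rw [dif_pos hgP, h2, h3, hχ.add _ hζ _ hz, hχ.op fun i => (hβZ i).1, ← add_assoc,
    ← Finset.sum_add_distrib]
  congr 1
  apply Finset.sum_congr rfl
  intro i _
  rw [(hβZ i).2, ← add_smul, ← hβ i]

/-- the defining property of the function `f`. -/
def IsF (Z : Subgroup G) {d : ℕ} (x : Fin d → G) (χ : G → T) (ρ : Fin d → T) (f : G → T) : Prop :=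
  ∀ (α : Fin d → ℤ) (z : G), z ∈ Z → f (op (fun i => x i ^ α i) * z) = ∑ i, α i • ρ i + χ z

variable {f : G → T}

omit [Finite G] hp in
lemma IsF.E (hf : IsF Z x χ ρ f) (L : Lt p P Z x l) (hχ : Chi Z χ) {u z : G} (hu : u ∈ P)
    (hz : z ∈ Z) : f (u * z) = f u + χ z := by
  obtain ⟨a, -, h1⟩ := L.exi hu
  have h2 : u = op (fun i => x i ^ (a i : ℤ)) * ((cp x a)⁻¹ * u) := by
    rw [← cp_eq_op, mul_inv_cancel_left]
  have h3 : u * z = op (fun i => x i ^ (a i : ℤ)) * (((cp x a)⁻¹ * u) * z) := by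
    rw [← mul_assoc, ← h2]
  rw [h3, hf _ _ (Z.mul_mem h1 hz), hχ.add _ h1 _ hz, ← add_assoc, ← hf _ _ h1, ← h2]

omit [Finite G] hp [Z.Normal] in
lemma IsF.one (hf : IsF Z x χ ρ f) (hχ : Chi Z χ) : f 1 = 0 := by
  have h1 := hf (fun _ => 0) 1 Z.one_mem
  have h2 : op (fun i : Fin d => x i ^ (0 : ℤ)) = 1 := by
    have := op_mem (u := fun i : Fin d => x i ^ (0 : ℤ)) (K := ⊥) (fun i => by simp)
    exact Subgroup.mem_bot.1 this
  rw [h2, mul_one] at h1
  rw [h1, hχ.one]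
  simp

omit [Z.Normal] in
/-- powers of a product of elements of `A a`. -/
lemma PZ.op_pow (h : PZ p P Z j N) {a : ℕ} {d : ℕ} {u : Fin d → G} (hu : ∀ i, u i ∈ h.A a) :
    (op u) ^ p ^ (a + 1) = op fun i => u i ^ p ^ (a + 1) := by
  induction d with
  | zero => simp [op]
  | succ d ih =>
    rw [op_succ, h.mul_pow a (hu 0) (op_mem fun i => hu i.succ), ih fun i => hu i.succ, op_succ]

/-- **(D)** -/
theorem IsF.D (hf : IsF Z x χ ρ f) (h : PZ p P Z j N) (L : Lt p P Z x l) (hχ : Chi Z χ)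
    (hρ : ∀ i, p ^ l i • ρ i = χ (x i ^ p ^ l i)) {a : ℕ} {u g : G} (hu : u ∈ P) (hg : g ∈ P)
    (hga : g ^ p ^ a ∈ Z) : p ^ (a + 1) • (f (u * g) - f u) = χ (g ^ p ^ (a + 1)) := by
  obtain ⟨c, -, hc⟩ := L.exi hu
  obtain ⟨b, -, hb⟩ := L.exi (P.mul_mem hu hg)
  set z := (cp x c)⁻¹ * u with hz
  set z' := (cp x b)⁻¹ * (u * g) with hz'
  have eu : u = cp x c * z := by rw [hz, mul_inv_cancel_left]
  have eug : u * g = cp x b * z' := by rw [hz', mul_inv_cancel_left]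
  have eg : g = z⁻¹ * ((cp x c)⁻¹ * cp x b) * z' := by
    have : g = u⁻¹ * (u * g) := by group
    rw [this, eug, eu]; group
  have hcP : cp x c ∈ P := cp_mem fun i => P.pow_mem (L.mem i) _
  have hbP : cp x b ∈ P := cp_mem fun i => P.pow_mem (L.mem i) _
  have hcbP : (cp x c)⁻¹ * cp x b ∈ P := P.mul_mem (P.inv_mem hcP) hbP
  have hY : g = ((cp x c)⁻¹ * cp x b) * (z⁻¹ * z') := by
    rw [← mul_assoc, ← ((h.cen z hc _ hcbP).inv_left).eq]; exact eg
  clear_value z z'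
  -- adapted
  have h1 : ((cp x c)⁻¹ * cp x b) ^ p ^ a ∈ Z := by
    have e1 : (cp x c)⁻¹ * cp x b = g * (z⁻¹ * z')⁻¹ := by
      rw [eq_mul_inv_iff_mul_eq, ← hY]
    have e3 : Commute g (z⁻¹ * z')⁻¹ :=
      (h.cen _ (Z.inv_mem (Z.mul_mem (Z.inv_mem hc) hb)) g hg).symm
    rw [e1, e3.mul_pow]
    exact Z.mul_mem hga (Z.pow_mem (Z.inv_mem (Z.mul_mem (Z.inv_mem hc) hb)) _)
  have had := L.adapt h a h1
  let δ : Fin d → ℤ := fun i => (b i : ℤ) - c i
  have hδZ : ∀ i, (x i ^ δ i) ^ p ^ (a + 1) ∈ Z ∧ χ ((x i ^ δ i) ^ p ^ (a + 1)) =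
      p ^ (a + 1) • (δ i • ρ i) := by
    intro i
    have e1 : (x i ^ δ i) ^ p ^ (a + 1) = x i ^ ((p : ℤ) ^ (a + 1) * δ i) := by
      rw [← zpow_natCast, ← zpow_mul, mul_comm]
      push_cast
      rfl
    have e2 : ((p : ℤ) ^ l i) ∣ (p : ℤ) ^ (a + 1) * δ i := by
      have : (p : ℤ) ^ (a + 1) * δ i = p * (p ^ a * δ i) := by ring
      rw [this]
      exact (had i).mul_left _
    rw [e1]
    refine ⟨(chi_letter L hχ hρ e2).1, ?_⟩
    rw [(chi_letter L hχ hρ e2).2, mul_smul, ← natCast_zsmul]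
    push_cast
    rfl
  have hδA : ∀ i, x i ^ δ i ∈ h.A a := by
    intro i
    rw [h.mem_A]
    refine ⟨P.zpow_mem (L.mem i) _, ?_⟩
    have e1 : (x i ^ δ i) ^ p ^ a = x i ^ ((p : ℤ) ^ a * δ i) := by
      rw [← zpow_natCast, ← zpow_mul, mul_comm]
      push_cast
      rfl
    rw [e1]
    exact (chi_letter L hχ hρ (had i)).1
  -- modulo `Omega_a`
  have hn : (h.S.Om h.pg a).Normal := h.S.Om_normal h.pg a
  let π := QuotientGroup.mk' (h.S.Om h.pg a)
  have hker : ∀ g : G, π g = 1 ↔ g ∈ h.S.Om h.pg a := fun g => QuotientGroup.eq_one_iff g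
  have h2 : π (cp x b) = π (cp x c) * π (op fun i => x i ^ δ i) := by
    rw [cp_eq_op, cp_eq_op, op_map, op_map, op_map, ← op_mul]
    · congr 1
      funext i
      rw [← map_mul, ← zpow_add]
      congr 2
      change _ = (c i : ℤ) + ((b i : ℤ) - c i)
      ring
    · intro i k
      change _ * _ = _ * _
      rw [← commutatorElement_eq_one_iff_mul_comm, ← map_commutatorElement, hker]
      exact ⟨cm_mem (P.zpow_mem (L.mem i) _) (P.zpow_mem (L.mem k) _),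
        h.P1 (P.zpow_mem (L.mem i) _) (P.zpow_mem (L.mem k) _) (h.mem_A.1 (hδA i)).2⟩
  set w := (op fun i => x i ^ δ i) * (z⁻¹ * z') with hw
  have hwP : w ∈ P := P.mul_mem (op_mem fun i => P.zpow_mem (L.mem i) _)
    (P.mul_mem (P.inv_mem (h.le hc)) (h.le hb))
  set ω := g * w⁻¹ with hω
  have h3 : ω ∈ h.S.Om h.pg a := by
    rw [← hker, hω, map_mul, map_inv, mul_inv_eq_one]
    have e3 : π ((cp x c)⁻¹ * cp x b) = π (op fun i => x i ^ δ i) := by
      rw [map_mul, map_inv, h2, inv_mul_cancel_left]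
    calc π g = π ((cp x c)⁻¹ * cp x b) * π (z⁻¹ * z') := by rw [← map_mul, ← hY]
      _ = π w := by rw [e3, ← map_mul]
  have h4 : g ^ p ^ (a + 1) = w ^ p ^ (a + 1) := by
    have e1 : g = ω * w := by rw [hω]; group
    rw [e1]
    refine (emb h.S).mul_pow_of_Om h.pg h3.1 hwP (a + 1) ?_
    rw [pow_succ, pow_mul, h3.2, one_pow]
  have h5 : w ^ p ^ (a + 1) = (op fun i => (x i ^ δ i) ^ p ^ (a + 1)) * (z⁻¹ * z') ^ p ^ (a + 1) := by
    rw [hw, h.mul_pow a (op_mem hδA) (h.Z_le_A (Z.mul_mem (Z.inv_mem hc) hb)), h.op_pow hδA]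
  have hzz : z⁻¹ * z' ∈ Z := Z.mul_mem (Z.inv_mem hc) hb
  rw [h4, h5, hχ.add _ (op_mem fun i => (hδZ i).1) _ (Z.pow_mem hzz _), hχ.op fun i => (hδZ i).1,
    hχ.pow hzz, hχ.add _ (Z.inv_mem hc) _ hb, hχ.inv hc, Finset.sum_congr rfl fun i _ => (hδZ i).2,
    ← Finset.smul_sum, ← smul_add]
  congr 1
  rw [eug, cp_eq_op, hf _ _ hb]
  conv_lhs => rw [eu, cp_eq_op, hf _ _ hc]
  have e3 : ∑ i, δ i • ρ i = ∑ i, (b i : ℤ) • ρ i - ∑ i, (c i : ℤ) • ρ i := by
    rw [← Finset.sum_sub_distrib]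
    apply Finset.sum_congr rfl
    intro i _
    rw [← sub_smul]
  rw [e3]
  abel

/-- **(L)** -/
theorem IsF.L (hf : IsF Z x χ ρ f) (h : PZ p P Z j N) (L : Lt p P Z x l) (hχ : Chi Z χ)
    (hρ : ∀ i, p ^ l i • ρ i = χ (x i ^ p ^ l i)) {a b : ℕ} {v : G} (hv : v ∈ P)
    (hva : v ^ p ^ a ∈ Z) (hab : a + 1 ≤ b) : p ^ b • f v = χ (v ^ p ^ b) := by
  obtain ⟨c, rfl⟩ := Nat.exists_eq_add_of_le' (show 1 ≤ b by omega)
  have h1 := (h.mem_A.1 (h.A_mono (show a ≤ c by omega) (h.mem_A.2 ⟨hv, hva⟩))).2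
  have h2 := hf.D h L hχ hρ P.one_mem hv h1
  rwa [one_mul, hf.one hχ, sub_zero] at h2

end f

end Pool.Agent.Helper10.RK
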