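import Mathlib
import Pool.Agent.Helper10.RK.LemmaP2

/-! Project RK (MP_aa96c4_al), **Lemma P**: words, (i') and (ii'), and the main statement. -/

namespace Pool.Agent.Helper10.RK

open RKP
open Pool.Agent.Helper46.RK (NSer)
open Pool.Agent.Helper60.RK (Emb)
open scoped commutatorElement

section wf

variable {G T : Type*} [Group G] [AddCommGroup T]

/-- the value of `f` at `y (x_1 - 1) ... (x_q - 1)`. -/
def wf (f : G → T) : G → List G → T
  | y, [] => f y
  | y, x :: l => wf f (y * x) l - wf f y l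

lemma wf_nil (f : G → T) (y : G) : wf f y [] = f y := rfl

lemma wf_cons (f : G → T) (y x : G) (l : List G) : wf f y (x :: l) = wf f (y * x) l - wf f y l := rfl

lemma wf_smul (n : ℕ) (f : G → T) (y : G) (l : List G) :
    wf (fun g => n • f g) y l = n • wf f y l := by
  induction l generalizing y with
  | nil => rfl
  | cons x l ih => rw [wf_cons, wf_cons, ih, ih, smul_sub]

/-- words in the group ring. -/
lemma wf_eq (φ : MonoidAlgebra ℤ G →+ T) (y : G) (l : List G) :
    φ (MonoidAlgebra.of ℤ G y * (l.map fun x => MonoidAlgebra.of ℤ G x - 1).prod) =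
      wf (fun g => φ (MonoidAlgebra.of ℤ G g)) y l := by
  induction l generalizing y with
  | nil => rw [List.map_nil, List.prod_nil, mul_one]; rfl
  | cons x l ih =>
    rw [List.map_cons, List.prod_cons, wf_cons, ← ih, ← ih, ← map_sub]
    congr 1
    rw [map_mul, ← mul_assoc, mul_sub, mul_one, sub_mul]

/-- alternating sum over the cube. -/
def altA : (n : ℕ) → (Q n → T) → T
  | 0, c => c ()
  | n + 1, c => altA n (fc true c) - altA n (fc false c)

lemma altA_add (n : ℕ) (c d : Q n → T) : altA n (fun e => c e + d e) = altA n c + altA n d := by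
  induction n with
  | zero => rfl
  | succ n ih =>
    change altA n (fun e => fc true c e + fc true d e) - altA n (fun e => fc false c e + fc false d e) =
      (altA n (fc true c) - altA n (fc false c)) + (altA n (fc true d) - altA n (fc false d))
    rw [ih, ih]
    abel

lemma altA_zero (n : ℕ) : altA n (fun _ => (0 : T)) = 0 := by
  induction n with
  | zero => rfl
  | succ n ih =>
    change altA n (fun _ => (0 : T)) - altA n (fun _ => (0 : T)) = 0
    rw [sub_self]

lemma altA_sum (n : ℕ) {d : ℕ} (c : Fin d → Q n → T) :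
    altA n (fun e => ∑ i, c i e) = ∑ i, altA n (c i) := by
  induction d with
  | zero =>
    simp only [Finset.univ_eq_empty, Finset.sum_empty]
    exact altA_zero n
  | succ d ih =>
    have h1 : (fun e => ∑ i, c i e) = fun e => c 0 e + ∑ i : Fin d, c i.succ e := by
      funext e; rw [Fin.sum_univ_succ]
    rw [h1, altA_add, ih, Fin.sum_univ_succ]

/-- words as alternating sums. -/
lemma wf_altA (f : G → T) (y : G) (l : List (G × ℕ)) :
    wf f y (l.map Prod.fst) = altA (l.map Prod.snd).length (fun e => f (wd y l e)) := by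
  induction l generalizing y with
  | nil => rfl
  | cons q l ih =>
    rw [List.map_cons, wf_cons, ih, ih]
    rfl

/-- the alternating sum of an additive function on a polynomial cube. -/
lemma altA_hk {X : Type*} [Group X] {F : ℕ → Subgroup X} {Z : Subgroup X} {χ : X → T}
    (hχ : Chi Z χ) (hF : ∀ m, F m ≤ Z) {ws : List ℕ} : ∀ {m : ℕ} {c : Q ws.length → X},
    hk F m ws c → ∃ z ∈ F (m + ws.sum), altA ws.length (fun e => χ (c e)) = χ z := by
  induction ws with
  | nil => intro m c hc; exact ⟨c (), by rw [List.sum_nil, add_zero]; exact hc, rfl⟩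
  | cons w ws ih =>
    intro m c hc
    obtain ⟨z, hz, h1⟩ := ih hc.2
    refine ⟨z, by rw [List.sum_cons, ← add_assoc]; exact hz, ?_⟩
    rw [← h1]
    change altA ws.length (fun e => χ (c (true, e))) - altA ws.length (fun e => χ (c (false, e))) = _
    rw [sub_eq_iff_eq_add, ← altA_add]
    congr 1
    funext e
    -- the values are in `Z`
    have hv : ∀ {ws : List ℕ} {m : ℕ} {c : Q ws.length → X}, hk F m ws c → ∀ e, c e ∈ Z := by
      intro ws
      induction ws with
      | nil => intro m c hc e; exact hF _ hc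
      | cons w ws ih =>
        rintro m c hc ⟨b, e⟩
        have h0 : c (false, e) ∈ Z := ih hc.1 e
        cases b
        · exact h0
        · have h1 : (c (false, e))⁻¹ * c (true, e) ∈ Z := ih hc.2 e
          have h2 := Z.mul_mem h0 h1
          rwa [mul_inv_cancel_left] at h2
    have h0 : c (false, e) ∈ Z := hv hc.1 e
    have h2 : (c (false, e))⁻¹ * c (true, e) ∈ Z := hv hc.2 e
    have h3 := hχ.add _ h0 _ h2
    rw [mul_inv_cancel_left] at h3
    rw [h3, add_comm]
    rfl

/-- a polynomial cube with values in `Z`. -/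
lemma hk_inf {X : Type*} [Group X] {F : ℕ → Subgroup X} {Z : Subgroup X} {ws : List ℕ} :
    ∀ {m : ℕ} {c : Q ws.length → X}, hk F m ws c → (∀ e, c e ∈ Z) → hk (fun m => Z ⊓ F m) m ws c := by
  induction ws with
  | nil => intro m c hc hz; exact ⟨hz (), hc⟩
  | cons w ws ih =>
    intro m c hc hz
    exact ⟨ih hc.1 fun e => hz (false, e),
      ih hc.2 fun e => Z.mul_mem (Z.inv_mem (hz (false, e))) (hz (true, e))⟩

/-- lifting of polynomial cubes along filtered surjections. -/
lemma hk_lift {A B : Type*} [Group A] [Group B] {FA : ℕ → Subgroup A} {FB : ℕ → Subgroup B}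
    (φ : A →* B) (h : ∀ m, ∀ b ∈ FB m, ∃ a ∈ FA m, φ a = b) {ws : List ℕ} :
    ∀ {m : ℕ} {u : Q ws.length → B}, hk FB m ws u →
      ∃ α : Q ws.length → A, hk FA m ws α ∧ ∀ e, φ (α e) = u e := by
  induction ws with
  | nil =>
    intro m u hu
    obtain ⟨a, ha, hau⟩ := h m _ hu
    exact ⟨fun _ => a, ha, fun e => hau⟩
  | cons w ws ih =>
    intro m u hu
    obtain ⟨α, h1, h2⟩ := ih hu.1
    obtain ⟨β, h3, h4⟩ := ih hu.2
    refine ⟨gl α (α * β), ⟨h1, ?_⟩, ?_⟩
    · rw [fc_false_gl, fc_true_gl, inv_mul_cancel_left]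
      exact h3
    · rintro ⟨b, e⟩
      cases b
      · exact h2 e
      · change φ (α e * β e) = u (true, e)
        rw [map_mul, h2, h4]
        exact mul_inv_cancel_left (u (false, e)) (u (true, e))

end wf

section i

variable {G T : Type*} [Group G] [Finite G] [AddCommGroup T] {p : ℕ} [hp : _root_.Fact p.Prime]
  {P Z : Subgroup G} [Z.Normal] {j N d : ℕ} {x : Fin d → G} {l : Fin d → ℕ} {χ : G → T}
  {ρ : Fin d → T} {f : G → T}

omit [Finite G] hp [Z.Normal] in
/-- words of `q >= 2` letters of `P`, one of them in `A a`. -/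
theorem word_small (h : PZ p P Z j N)
    (hD : ∀ {a : ℕ} {u g : G}, u ∈ P → g ∈ P → g ^ p ^ a ∈ Z →
      p ^ (a + 1) • (f (u * g) - f u) = χ (g ^ p ^ (a + 1)))
    {a : ℕ} {y : G} (hy : y ∈ P) {w : List G} (hw : ∀ g ∈ w, g ∈ P) (hw2 : 2 ≤ w.length)
    {g : G} (hg : g ∈ w) (hga : g ^ p ^ a ∈ Z) : p ^ (a + 1) • wf f y w = 0 := by
  rw [← wf_smul]
  set F := fun g => p ^ (a + 1) • f g with hF
  -- the difference
  have key : ∀ (w : List G), (∀ g ∈ w, g ∈ P) → ∀ (y g : G), y ∈ P → g ∈ P → g ^ p ^ a ∈ Z →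
      wf F (y * g) w - wf F y w = if w = [] then χ (g ^ p ^ (a + 1)) else 0 := by
    intro w
    induction w with
    | nil =>
      intro _ y g hy hg hga
      rw [if_pos rfl, wf_nil, wf_nil, ← hD hy hg hga, smul_sub]
    | cons x w ih =>
      intro hw y g hy hg hga
      have hx : x ∈ P := hw x List.mem_cons_self
      have hw' : ∀ g ∈ w, g ∈ P := fun g hg => hw g (List.mem_cons_of_mem _ hg)
      rw [if_neg (List.cons_ne_nil x w), wf_cons, wf_cons]
      have e1 : y * g * x = y * x * (x⁻¹ * g * x) := by group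
      have hg' : x⁻¹ * g * x ∈ P := P.mul_mem (P.mul_mem (P.inv_mem hx) hg) hx
      have e2 : ∀ n, (x⁻¹ * g * x) ^ n = x⁻¹ * g ^ n * x := by
        intro n
        have := conj_pow (i := n) (a := x⁻¹) (b := g)
        rwa [inv_inv] at this
      have hga' : (x⁻¹ * g * x) ^ p ^ a ∈ Z := by
        rw [e2]
        have := h.zn.conj_mem _ hga x⁻¹
        rwa [inv_inv] at this
      have h1 := ih hw' (y * x) (x⁻¹ * g * x) (P.mul_mem hy hx) hg' hga'
      have h2 := ih hw' y g hy hg hga
      have h3 : (x⁻¹ * g * x) ^ p ^ (a + 1) = g ^ p ^ (a + 1) := by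
        rw [e2]
        have hz : g ^ p ^ (a + 1) ∈ Z := by
          rw [pow_succ, pow_mul]; exact Z.pow_mem hga _
        rw [mul_assoc, (h.cen _ hz x hx).eq, inv_mul_cancel_left]
      rw [e1, sub_sub_sub_comm, h1, h2, h3, sub_self]
  -- words starting with the letter
  induction w generalizing y with
  | nil => simp at hw2
  | cons x w ih =>
    have hx : x ∈ P := hw x List.mem_cons_self
    have hw' : ∀ g ∈ w, g ∈ P := fun g hg => hw g (List.mem_cons_of_mem _ hg)
    rw [wf_cons]
    rcases List.mem_cons.1 hg with rfl | hg'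
    · rw [key w hw' y g hy hx hga, if_neg]
      rintro rfl
      simp at hw2
    · -- the letter occurs later
      by_cases hwl : 2 ≤ w.length
      · rw [ih (P.mul_mem hy hx) hw' hwl hg', ih hy hw' hwl hg', sub_zero]
      · have h1 : w = [g] := by
          match w, hwl, hg' with
          | [], _, hg' => simp at hg'
          | [a], _, hg' => rw [List.mem_singleton.1 hg']
          | _ :: _ :: _, hwl, _ => simp at hwl
        subst h1
        have hgP : g ∈ P := hw' g List.mem_cons_self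
        rw [wf_cons, wf_cons]
        have h2 := key [] (by simp) (y * x) g (P.mul_mem hy hx) hgP hga
        have h3 := key [] (by simp) y g hy hgP hga
        rw [h2, h3, sub_self]

end i

section ii

variable {G T : Type*} [Group G] [Finite G] [AddCommGroup T] {p : ℕ} [hp : _root_.Fact p.Prime]
  {P Z : Subgroup G} {j N d : ℕ}

open Classical in
/-- the filtration of `G` for (ii'). -/
noncomputable def FF (p : ℕ) (P Z : Subgroup G) (j N : ℕ) (m : ℕ) : Subgroup G :=
  if 2 ≤ m ∧ N ≤ (m - 2) * j then ⊥ else pw (p ^ ((m - 1) * j)) P ⊔ Z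

omit [Finite G] hp in
lemma FF_bot {m : ℕ} (h : 2 ≤ m ∧ N ≤ (m - 2) * j) : FF p P Z j N m = ⊥ := if_pos h

omit [Finite G] hp in
lemma FF_pw {m : ℕ} (h : ¬ (2 ≤ m ∧ N ≤ (m - 2) * j)) :
    FF p P Z j N m = pw (p ^ ((m - 1) * j)) P ⊔ Z := if_neg h

omit [Finite G] hp in
lemma PZ.FF_zero (h : PZ p P Z j N) : FF p P Z j N 0 = P := by
  rw [FF_pw (by omega), Nat.zero_sub, zero_mul, pw_zero]
  exact sup_eq_left.2 h.le

omit [Finite G] hp in
lemma PZ.FF_one (h : PZ p P Z j N) : FF p P Z j N 1 = P := by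
  rw [FF_pw (by omega), Nat.sub_self, zero_mul, pw_zero]
  exact sup_eq_left.2 h.le

lemma PZ.nser (h : PZ p P Z j N) : NSer (FF p P Z j N) := by
  have hzn := h.zn
  constructor
  · intro a b hab
    by_cases ha : 2 ≤ a ∧ N ≤ (a - 2) * j
    · have hb : 2 ≤ b ∧ N ≤ (b - 2) * j :=
        ⟨ha.1.trans hab, ha.2.trans (Nat.mul_le_mul_right _ (by omega))⟩
      rw [FF_bot ha, FF_bot hb]
    · rw [FF_pw ha]
      by_cases hb : 2 ≤ b ∧ N ≤ (b - 2) * j
      · rw [FF_bot hb]; exact bot_le
      · rw [FF_pw hb]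
        exact sup_le_sup_right (pw_anti (Nat.mul_le_mul_right _ (by omega))) _
  · -- commutators
    have hPn : ∀ e, (pw (p ^ e) P).Normal := fun e => pw_normal h.S.normal
    have hFn : ∀ m, (FF p P Z j N m).Normal := by
      intro m
      by_cases hm : 2 ≤ m ∧ N ≤ (m - 2) * j
      · rw [FF_bot hm]; infer_instance
      · rw [FF_pw hm]
        have := hPn ((m - 1) * j)
        exact Subgroup.sup_normal _ _
    have hFP : ∀ m, FF p P Z j N m ≤ P := by
      intro m
      by_cases hm : 2 ≤ m ∧ N ≤ (m - 2) * j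
      · rw [FF_bot hm]; exact bot_le
      · rw [FF_pw hm]; exact sup_le (pw_self _ _) h.le
    -- `[P, F b] <= F b` and `[P, F b] <= F (b + 1)` is not needed
    intro a b
    by_cases ha0 : a = 0
    · subst ha0
      have := hFn b
      rw [zero_add]
      exact Subgroup.commutator_le_right _ _
    by_cases hb0 : b = 0
    · subst hb0
      have := hFn a
      rw [add_zero]
      exact Subgroup.commutator_le_left _ _
    by_cases ha : 2 ≤ a ∧ N ≤ (a - 2) * j
    · rw [FF_bot ha, Subgroup.commutator_bot_left]; exact bot_le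
    by_cases hb : 2 ≤ b ∧ N ≤ (b - 2) * j
    · rw [FF_bot hb, Subgroup.commutator_bot_right]; exact bot_le
    rw [FF_pw ha, FF_pw hb]
    by_cases hab : 2 ≤ a + b ∧ N ≤ (a + b - 2) * j
    · rw [FF_bot hab]
      apply h.comm_sup (pw_self _ _) (pw_self _ _)
      rw [Subgroup.commutator_le]
      intro u hu v hv
      have h1 : N ≤ (a - 1) * j + (b - 1) * j := by
        rw [← add_mul]
        exact hab.2.trans (Nat.mul_le_mul_right _ (by omega))
      rw [Subgroup.mem_bot, commutatorElement_eq_one_iff_mul_comm]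
      exact (h.P2 h1 hu hv).eq
    · rw [FF_pw hab]
      apply h.comm_sup (pw_self _ _) (pw_self _ _)
      refine (comm_pw_pw h.S h.pg _ _).trans (le_trans (le_of_eq ?_) le_sup_left)
      have e1 : (a - 1) * j + (b - 1) * j + j = (a + b - 1) * j := by
        obtain ⟨a', rfl⟩ := Nat.exists_eq_succ_of_ne_zero ha0
        obtain ⟨b', rfl⟩ := Nat.exists_eq_succ_of_ne_zero hb0
        rw [Nat.succ_eq_add_one, Nat.succ_eq_add_one, Nat.add_sub_cancel, Nat.add_sub_cancel,
          show a' + 1 + (b' + 1) - 1 = a' + b' + 1 by omega]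
        ring
      rw [e1]

variable [Z.Normal] {x : Fin d → G} {l : Fin d → ℕ}

omit [Finite G] in
/-- the factorisation in `G / Z`. -/
lemma Lt.fact (L : Lt p P Z x l) :
    Fact (fun m => (FF p P Z j N m).map (QuotientGroup.mk' Z))
      (fun i => Subgroup.zpowers (QuotientGroup.mk' Z (x i))) := by
  have hpw : ∀ e, (pw (p ^ e) P ⊔ Z).map (QuotientGroup.mk' Z) =
      pw (p ^ e) (P.map (QuotientGroup.mk' Z)) := by
    intro e
    apply le_antisymm
    · rw [Subgroup.map_sup]
      apply sup_le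
      · rw [Subgroup.map_le_iff_le_comap, pw_le]
        intro r hr
        rw [Subgroup.mem_comap, map_pow]
        exact mem_pw (Subgroup.mem_map_of_mem _ hr)
      · rw [QuotientGroup.map_mk'_self]; exact bot_le
    · rw [pw_le]
      rintro _ ⟨r, hr, rfl⟩
      rw [← map_pow]
      exact Subgroup.mem_map_of_mem _ ((le_sup_left : _ ≤ pw (p ^ e) P ⊔ Z) (mem_pw hr))
  constructor
  · intro m g hg
    by_cases hm : 2 ≤ m ∧ N ≤ (m - 2) * j
    · simp only [FF_bot hm, Subgroup.map_bot, Subgroup.mem_bot] at hg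
      subst hg
      refine ⟨fun _ => 1, fun i => Subgroup.one_mem _, fun i => Subgroup.one_mem _, ?_⟩
      exact Subgroup.mem_bot.1 (op_mem (K := ⊥) fun i => Subgroup.one_mem _)
    · simp only [FF_pw hm, hpw] at hg ⊢
      obtain ⟨a, -, h2, h3⟩ := L.eb.ex _ g hg
      refine ⟨fun i => QuotientGroup.mk' Z (x i) ^ (a i), fun i => Subgroup.pow_mem _
        (Subgroup.mem_zpowers _) _, fun i => ?_, ?_⟩
      · obtain ⟨k, hk⟩ := h2 i
        change QuotientGroup.mk' Z (x i) ^ a i ∈ _
        rw [hk, pow_mul (QuotientGroup.mk' Z (x i))]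
        exact Subgroup.pow_mem _ (mem_pw (L.eb.mem i)) _
      · rw [← h3]; rfl
  · intro u v hu hv huv
    have hpos : ∀ i, (0 : ℤ) < (p : ℤ) ^ l i := fun i => pow_pos (by exact_mod_cast hp.out.pos) _
    have hex : ∀ u : Fin d → G ⧸ Z, (∀ i, u i ∈ Subgroup.zpowers (QuotientGroup.mk' Z (x i))) →
        ∃ a : Fin d → ℕ, (∀ i, a i < p ^ l i) ∧ ∀ i, QuotientGroup.mk' Z (x i) ^ a i = u i := by
      intro u hu
      have : ∀ i, ∃ a : ℕ, a < p ^ l i ∧ QuotientGroup.mk' Z (x i) ^ a = u i := by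
        intro i
        obtain ⟨n, hn⟩ := Subgroup.mem_zpowers_iff.1 (hu i)
        have h1 : (((n % (p : ℤ) ^ l i).toNat : ℕ) : ℤ) = n % (p : ℤ) ^ l i :=
          Int.toNat_of_nonneg (Int.emod_nonneg _ (hpos i).ne')
        refine ⟨(n % (p : ℤ) ^ l i).toNat, ?_, ?_⟩
        · have h2 := Int.emod_lt_of_pos n (hpos i)
          rw [← h1] at h2
          exact_mod_cast h2
        · rw [← hn, ← zpow_natCast, h1]
          conv_rhs => rw [← Int.emod_add_mul_ediv n ((p : ℤ) ^ l i), zpow_add, zpow_mul]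
          have h3 := L.eb.ord i
          rw [← zpow_natCast] at h3
          push_cast at h3
          rw [h3, one_zpow, mul_one]
      choose a ha using this
      exact ⟨a, fun i => (ha i).1, fun i => (ha i).2⟩
    obtain ⟨a, ha1, ha2⟩ := hex u hu
    obtain ⟨b, hb1, hb2⟩ := hex v hv
    have h1 : a = b := by
      apply L.eb.uniq a b ha1 hb1
      have e1 : cp (fun i => QuotientGroup.mk' Z (x i)) a = op u := by
        rw [cp_def, op]; congr 2; funext i; exact ha2 i
      have e2 : cp (fun i => QuotientGroup.mk' Z (x i)) b = op v := by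
        rw [cp_def, op]; congr 2; funext i; exact hb2 i
      rw [e1, e2, huv]
    funext i
    rw [← ha2 i, ← hb2 i, h1]

variable {χ : G → T} {ρ : Fin d → T} {f : G → T}

/-- **(ii')** -/
theorem word_long (hf : IsF Z x χ ρ f) (h : PZ p P Z j N) (L : Lt p P Z x l) (hχ : Chi Z χ)
    (hρ : ∀ i, p ^ l i • ρ i = χ (x i ^ p ^ l i)) {y : G} (hy : y ∈ P) {w : List G}
    (hw : ∀ g ∈ w, g ∈ P) (hw2 : 2 ≤ w.length) (hN : N ≤ (w.length - 2) * j) : wf f y w = 0 := by
  have hNS := h.nser
  have hzn := h.zn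
  -- the cube
  set wl : List (G × ℕ) := w.map fun g => (g, 1) with hwl
  have hfst : wl.map Prod.fst = w := by
    rw [hwl, List.map_map]
    exact List.map_id w
  have hsum : (wl.map Prod.snd).sum = w.length := by
    rw [hwl, List.map_map]
    have : ((Prod.snd : G × ℕ → ℕ) ∘ fun g : G => (g, 1)) = fun _ => 1 := rfl
    rw [this]; simp
  have hc := hk_wd hNS wl (by
    intro q hq
    rw [hwl, List.mem_map] at hq
    obtain ⟨g, hg, rfl⟩ := hq
    change g ∈ FF p P Z j N 1
    rw [h.FF_one]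
    exact hw g hg) (y := y) (by rw [h.FF_zero]; exact hy)
  set ws := wl.map Prod.snd with hws
  set c := wd y wl with hcdef
  have hwf : wf f y w = altA ws.length (fun e => f (c e)) := by
    rw [← hfst, wf_altA]
  -- the quotient
  have hNSq : NSer (fun m => (FF p P Z j N m).map (QuotientGroup.mk' Z)) := by
    constructor
    · intro a b hab
      exact Subgroup.map_mono (hNS.anti hab)
    · intro a b
      rw [← Subgroup.map_commutator]
      exact Subgroup.map_mono (hNS.comm a b)
  have hcq : hk (fun m => (FF p P Z j N m).map (QuotientGroup.mk' Z)) 0 ws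
      (fun e => QuotientGroup.mk' Z (c e)) :=
    hk_map (QuotientGroup.mk' Z) (fun m g hg => Subgroup.mem_map_of_mem _ hg) hc
  obtain ⟨u, hu, hue⟩ := L.fact.coord hNSq hcq
  -- the integer cubes
  let φ : (i : Fin d) → Multiplicative ℤ →* G := fun i => zpowersHom G (x i)
  have hφ : ∀ i (n : Multiplicative ℤ), φ i n = x i ^ (Multiplicative.toAdd n) := fun i n => rfl
  have hlift : ∀ i, ∃ α : Q ws.length → Multiplicative ℤ,
      hk (fun m => (FF p P Z j N m).comap (φ i)) 0 ws α ∧
        ∀ e, ((QuotientGroup.mk' Z).comp (φ i)) (α e) = u i e := by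
    intro i
    refine hk_lift ((QuotientGroup.mk' Z).comp (φ i)) ?_ (hu i)
    rintro m b ⟨hb1, hb2⟩
    by_cases hm : 2 ≤ m ∧ N ≤ (m - 2) * j
    · simp only [FF_bot hm, Subgroup.map_bot] at hb2
      refine ⟨1, Subgroup.one_mem _, ?_⟩
      rw [map_one]
      exact (Subgroup.mem_bot.1 hb2).symm
    · obtain ⟨n, hn⟩ := Subgroup.mem_zpowers_iff.1 hb1
      refine ⟨Multiplicative.ofAdd n, ?_, ?_⟩
      · rw [Subgroup.mem_comap, hφ, toAdd_ofAdd]
        obtain ⟨g, hg, hgb⟩ := hb2
        have h1 : g⁻¹ * x i ^ n ∈ Z := by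
          rw [← mkZ, map_mul, map_inv, hgb, map_zpow, hn, inv_mul_cancel]
        have h2 : x i ^ n = g * (g⁻¹ * x i ^ n) := by group
        rw [h2]
        apply Subgroup.mul_mem _ hg
        rw [FF_pw hm]
        exact (le_sup_right : Z ≤ _) h1
      · rw [MonoidHom.comp_apply, hφ, toAdd_ofAdd, map_zpow, hn]
  choose α hα1 hα2 using hlift
  -- the remaining part
  let ζ : Q ws.length → G := fun e => (op fun i => φ i (α i e))⁻¹ * c e
  have hζ1 : ∀ e, ζ e ∈ Z := by
    intro e
    rw [← mkZ, map_mul, map_inv, op_map, inv_mul_eq_one, ← hue e]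
    congr 1
    funext i
    exact hα2 i e
  have hζ2 : hk (FF p P Z j N) 0 ws ζ := by
    have h1 : (op fun i => fun e => φ i (α i e)) ∈ HK hNS 0 ws :=
      op_mem fun i => hk_map (φ i) (fun m n hn => hn) (hα1 i)
    have h2 := (clo hNS ws).mul ((clo hNS ws).inv (mem_HK.1 h1)) hc
    have h3 : (op fun i => fun e => φ i (α i e))⁻¹ * c = ζ := by
      funext e
      change ((op fun i => fun e => φ i (α i e)) e)⁻¹ * c e = _
      rw [op_apply]
    rwa [h3] at h2
  have hζ3 := hk_inf hζ2 hζ1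
  have hfc : (fun e => f (c e)) = fun e => ∑ i, (fun i e => Multiplicative.toAdd (α i e) • ρ i) i e +
      χ (ζ e) := by
    funext e
    have h1 : c e = op (fun i => x i ^ (Multiplicative.toAdd (α i e))) * ζ e := by
      change c e = (op fun i => φ i (α i e)) * ((op fun i => φ i (α i e))⁻¹ * c e)
      rw [mul_inv_cancel_left]
    rw [h1, hf _ _ (hζ1 e)]
  have hbot : FF p P Z j N (0 + ws.sum) = ⊥ := by
    rw [zero_add, hsum]
    exact FF_bot ⟨hw2, hN⟩
  rw [hwf, hfc, altA_add, altA_sum]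
  have h1 : altA ws.length (fun e => χ (ζ e)) = 0 := by
    obtain ⟨z, hz, h2⟩ := altA_hk hχ (fun m => inf_le_left) hζ3
    rw [h2]
    have h3 : z ∈ FF p P Z j N (0 + ws.sum) := hz.2
    rw [hbot, Subgroup.mem_bot] at h3
    rw [h3, hχ.one]
  rw [h1, add_zero]
  apply Finset.sum_eq_zero
  intro i _
  have hadd : Chi (⊤ : Subgroup (Multiplicative ℤ)) (fun n => Multiplicative.toAdd n • ρ i) :=
    ⟨fun z _ z' _ => by rw [toAdd_mul, add_smul]⟩
  obtain ⟨n, hn, h2⟩ := altA_hk hadd (fun m => le_top) (hα1 i)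
  rw [h2]
  have h3 : φ i n ∈ FF p P Z j N (0 + ws.sum) := hn
  rw [hbot, Subgroup.mem_bot, hφ] at h3
  have h4 : x i ^ Multiplicative.toAdd n ∈ Z := by rw [h3]; exact Z.one_mem
  have h5 := (chi_letter L hχ hρ (L.zpow_mem h4)).2
  rw [h3, hχ.one] at h5
  exact h5.symm

end ii

/-- **Lemma P** (section 3 of the master text of project RK). -/
theorem lemmaP {G T : Type*} [Group G] [Finite G] [AddCommGroup T] {p : ℕ}
    [hp : _root_.Fact p.Prime] {P Z : Subgroup G} {j N : ℕ} (h : PZ p P Z j N) {χ : G → T}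
    (hχ : Chi Z χ) (hdiv : ∀ t : T, ∃ s : T, p • s = t) :
    ∃ f : G → T, f 1 = 0 ∧
      (∀ {u z : G}, u ∈ P → z ∈ Z → f (u * z) = f u + χ z) ∧
      (∀ {a : ℕ} {u g : G}, u ∈ P → g ∈ P → g ^ p ^ a ∈ Z →
        p ^ (a + 1) • (f (u * g) - f u) = χ (g ^ p ^ (a + 1))) ∧
      (∀ {a b : ℕ} {v : G}, v ∈ P → v ^ p ^ a ∈ Z → a + 1 ≤ b → p ^ b • f v = χ (v ^ p ^ b)) ∧
      (∀ {a : ℕ} {y : G} {w : List G} {g : G}, y ∈ P → (∀ g ∈ w, g ∈ P) → 2 ≤ w.length →
        g ∈ w → g ^ p ^ a ∈ Z → p ^ (a + 1) • wf f y w = 0) ∧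
      (∀ {y : G} {w : List G}, y ∈ P → (∀ g ∈ w, g ∈ P) → 2 ≤ w.length →
        N ≤ (w.length - 2) * j → wf f y w = 0) := by
  have := h.zn
  obtain ⟨d, x, l, L⟩ := exists_lt h
  have hroot : ∀ (e : ℕ) (t : T), ∃ s : T, p ^ e • s = t := by
    intro e
    induction e with
    | zero => intro t; exact ⟨t, by rw [pow_zero, one_smul]⟩
    | succ e ih =>
      intro t
      obtain ⟨s, hs⟩ := ih t
      obtain ⟨r, hr⟩ := hdiv s
      exact ⟨r, by rw [pow_succ, mul_smul, hr, hs]⟩
  choose ρ hρ using fun i => hroot (l i) (χ (x i ^ p ^ l i))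
  obtain ⟨f, hf⟩ := exists_f h L hχ hρ
  have hf' : IsF Z x χ ρ f := hf
  refine ⟨f, hf'.one hχ, fun hu hz => hf'.E L hχ hu hz, fun hu hg hga => hf'.D h L hχ hρ hu hg hga,
    fun hv hva hab => hf'.L h L hχ hρ hv hva hab, fun hy hw hw2 hg hga => ?_,
    fun hy hw hw2 hN => word_long hf' h L hχ hρ hy hw hw2 hN⟩
  exact word_small h (fun hu hg hga => hf'.D h L hχ hρ hu hg hga) hy hw hw2 hg hga

end Pool.Agent.Helper10.RK
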