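import Mathlib
import Pool.Agent.Helper10.RK.LemmaP
import Pool.Agent.Helper43.RK.Defs

/-! Project RK (MP_aa96c4_al): Lemma P in the form of `RK43.LemmaP`. -/

namespace Pool.Agent.Helper10.RK

open RK43 (TT)

lemma tt_div (p : ℕ) (hp : p ≠ 0) (t : TT) : ∃ s : TT, p • s = t := by
  induction t using QuotientAddGroup.induction_on with
  | H x =>
    refine ⟨((x / p : ℚ) : TT), ?_⟩
    rw [← AddCircle.coe_nsmul, nsmul_eq_mul, mul_div_cancel₀ x (by exact_mod_cast hp)]

lemma ext_of {G : Type} [Group G] (f : G → TT) (x : G) :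
    RK43.ext f (MonoidAlgebra.of ℤ G x) = f x := by
  change Finsupp.liftAddHom (fun x => zmultiplesHom TT (f x)) (Finsupp.single x (1 : ℤ)) = f x
  rw [Finsupp.liftAddHom_apply_single]
  simp

lemma ext_wd {G : Type} [Group G] (f : G → TT) (l : List G) :
    RK43.ext f (RK43.wd l) = wf f 1 l := by
  have h1 := wf_eq (RK43.ext f) 1 l
  rw [map_one, one_mul] at h1
  have h2 : (fun g => RK43.ext f (MonoidAlgebra.of ℤ G g)) = f := funext fun g => ext_of f g
  rw [h2] at h1
  exact h1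

/-- **Lemma P** -/
theorem lemmaP43 (p : ℕ) [hp : _root_.Fact p.Prime] : RK43.LemmaP p := by
  intro G _ _ hG P Z j N S hZn hZP hcen hN χ hχ
  have h : PZ p P Z j N := ⟨S, hG, hZn, hZP, hcen, RKP.pw_le.2 hN⟩
  obtain ⟨f, h1, h2, -, h4, h5, h6⟩ := lemmaP h (χ := χ) ⟨hχ⟩ (tt_div p hp.out.ne_zero)
  refine ⟨f, h1, fun u hu z hz => h2 hu hz, fun a b v hv hva hab => h4 hv hva hab, ?_, ?_⟩
  · rintro a l hl hlP ⟨x, hx, hxa⟩
    rw [ext_wd]
    exact h5 P.one_mem hlP hl hx hxa
  · intro l hl hlP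
    rw [ext_wd]
    have hj := S.two
    have h7 : N ≤ (N / j + 1) * j := by
      have := Nat.lt_div_mul_add (a := N) (show 0 < j by omega)
      rw [add_mul, one_mul]
      exact this.le
    generalize N / j = q at h7 hl
    exact h6 P.one_mem hlP (by omega) (h7.trans (Nat.mul_le_mul_right _ (by omega)))

end Pool.Agent.Helper10.RK
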